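import Mathlib
import Pool.Agent.H39.Q1.Multi

set_option autoImplicit false
open Finset

/-! # Functionals which do not see toggles of joined and of free labels

`F` : a function of the open labels `w ⊆ E`; `W` : fixed open labels; `M` : a set of labels (mask).
`Tog E W M F` : `F w = F (insert e w)` if the ends of `e` are joined by open labels of `M`, and if the
faces of `e` are joined by closed labels of `M` other than `e`. No plane environment is needed: `F` may
be any functional of the link pattern of the part `M` of a network. Consequences: one toggle of a tie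
(`F_tie_open`, `F_tie_closed`), filling and emptying of a box crossed by one cluster (`fill_open`,
`fill_closed`). -/

namespace Pool.Agent.H42.W

open Pool.Agent.H75.Perc Pool.Agent.H75.TwoArm Pool.Agent.H75.Four Pool.Agent.H69.Q1
open Pool.Agent.Q1 Pool.Agent.H99.NC Pool.Agent.H60.Q1 Pool.Agent.H39.Q1
open Pool.Agent.H20.Q1 (near_iff far_iff BR_ends BR_of_ends)

variable {E W M w S : Finset (ℤ × ℤ)} {F : Finset (ℤ × ℤ) → ℂ} {e u v φ ψ x y : ℤ × ℤ}

lemma usym (h : IsUnit4 (y - x)) : IsUnit4 (x - y) := Pool.Agent.H39.Q1.unit_symm h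

/-- single toggles -/
structure Tog (E W M : Finset (ℤ × ℤ)) (F : Finset (ℤ × ℤ) → ℂ) : Prop where
  A : ∀ w ⊆ E, ∀ e ∈ E, e ∈ M → e ∉ W → e ∉ w → ∀ u v, IsUnit4 (v - u) → u + v = e →
    Co ((w ∪ W) ∩ M) u v → F w = F (insert e w)
  C : ∀ w ⊆ E, ∀ e ∈ E, e ∈ M → e ∉ W → e ∉ w → ∀ φ ψ, IsUnit4 (ψ - φ) → φ + ψ = e + (1, 1) →
    Co (du (M.erase e) (w ∪ W)) φ ψ → F w = F (insert e w)

/-- labels near a label -/
noncomputable def bx3 (l : ℤ × ℤ) : Finset (ℤ × ℤ) :=
  (Finset.Icc (l.1 - 3) (l.1 + 3)) ×ˢ (Finset.Icc (l.2 - 3) (l.2 + 3))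

/-- (B) the ends are not joined and the cluster of one end meets only labels of `M` -/
theorem Tog.B (hF : Tog E W M F) (hw : w ⊆ E) (he : e ∈ E) (heM : e ∈ M) (heW : e ∉ W)
    (hew : e ∉ w) (h1 : IsUnit4 (v - u)) (h2 : u + v = e) (h : ¬ Co ((w ∪ W) ∩ M) u v)
    (hadj : ∀ x y, Co ((w ∪ W) ∩ M) v x → IsUnit4 (y - x) → x + y ∈ M) :
    F w = F (insert e w) := by
  classical
  have ho := odd_of_ends h1 h2
  set N := M.biUnion bx3 with hN
  set w0 := (w ∪ W) ∩ M ∪ (N \ M) with hw0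
  have claim1 : ∀ x, Co w0 v x → Co ((w ∪ W) ∩ M) v x := by
    intro x hx
    induction hx with
    | refl => exact Co.refl _ _
    | @tail a b _ hab ih =>
      rcases mem_union.1 hab.2 with hl | hl
      · exact ih.tail ⟨hab.1, hl⟩
      · exact absurd (hadj a b ih hab.1) (mem_sdiff.1 hl).2
  have claim2 : ¬ Co w0 u v := fun h3 => h (claim1 u h3.symm).symm
  have he0 : e ∉ w0 := by
    rw [hw0, mem_union, mem_inter, mem_sdiff, mem_union]
    tauto
  obtain ⟨s1, s2⟩ := sides_fi ho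
  have hd := dco_of_not_co he0 h1 h2 claim2 s1 s2
  refine hF.C w hw e he heM heW hew _ _ s1 s2 ?_
  refine (DCo.ind (P := fun x => Co (du (M.erase e) (w ∪ W)) (fi (zu e)) x ∧
    ∃ y, IsUnit4 (y - x) ∧ x + y - (1, 1) ∈ M) hd ⟨Co.refl _ _, fi (zv e), s1, ?_⟩ ?_).1
  · rw [face_sub s2]; exact heM
  · rintro x y ⟨ih, z, hz1, hz2⟩ hxy hl
    have hlN : x + y - (1, 1) ∈ N := by
      rw [hN, mem_biUnion]
      refine ⟨_, hz2, ?_⟩
      unfold bx3
      rw [mem_product, mem_Icc, mem_Icc]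
      have a1 := unit_cases hz1
      have a2 := unit_cases hxy
      simp only [Prod.fst_add, Prod.snd_add, Prod.fst_sub, Prod.snd_sub]
      omega
    have hlM : x + y - (1, 1) ∈ M := by
      by_contra h3
      exact hl (mem_insert_of_mem (mem_union_right _ (mem_sdiff.2 ⟨hlN, h3⟩)))
    have hle : x + y - (1, 1) ≠ e := fun h3 => hl (by rw [h3]; exact mem_insert_self _ _)
    have hlw : x + y - (1, 1) ∉ w ∪ W := fun h3 =>
      hl (mem_insert_of_mem (mem_union_left _ (mem_inter.2 ⟨h3, hlM⟩)))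
    refine ⟨ih.tail ⟨hxy, mem_du_of (mem_erase.2 ⟨hle, hlM⟩) hlw⟩, x, usym hxy, ?_⟩
    rw [add_comm]; exact hlM

/-- (D) the faces are not joined off `e` and the dual cluster of one face meets only labels of `M` -/
theorem Tog.D (hF : Tog E W M F) (hw : w ⊆ E) (he : e ∈ E) (heM : e ∈ M) (heW : e ∉ W)
    (hew : e ∉ w) (h1 : IsUnit4 (ψ - φ)) (h2 : φ + ψ = e + (1, 1))
    (h : ¬ Co (du (M.erase e) (w ∪ W)) φ ψ)
    (hadj : ∀ x y, Co (du (M.erase e) (w ∪ W)) φ x → IsUnit4 (y - x) → x + y - (1, 1) ∈ M) :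
    F w = F (insert e w) := by
  classical
  have ho := odd_of_sides h1 h2
  obtain ⟨s1, s2⟩ := ends_vx ho
  refine hF.A w hw e he heM heW hew _ _ s1 s2 ?_
  by_contra hn
  have he0 : e ∉ (w ∪ W) ∩ M := by
    rw [mem_inter, mem_union]
    tauto
  have hd := dco_of_not_co he0 s1 s2 hn h1 h2
  apply h
  refine DCo.ind (P := fun x => Co (du (M.erase e) (w ∪ W)) φ x) hd (Co.refl _ _) ?_
  intro x y ih hxy hl
  have hlM := hadj x y ih hxy
  refine ih.tail ⟨hxy, mem_du_of (mem_erase.2 ⟨fun h3 => hl ?_, hlM⟩) fun h3 => hl ?_⟩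
  · rw [h3]; exact mem_insert_self _ _
  · exact mem_insert_of_mem (mem_inter.2 ⟨h3, hlM⟩)

/-! ### one toggle of a tie -/

/-- the mask contains the layer, the ties, the wall and the neighbourhood of the layer (open ties) -/
structure MskO (M Λ T W1 : Finset (ℤ × ℤ)) (b : ℤ × ℤ → ℤ × ℤ) : Prop where
  sub : Λ ∪ T ∪ W1 ⊆ M
  adj : ∀ x y, IsUnit4 (y - x) → VO Λ T b x → x + y ∈ M

/-- the same for closed ties -/
structure MskC (M Λ T K1 : Finset (ℤ × ℤ)) (b : ℤ × ℤ → ℤ × ℤ) : Prop where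
  sub : Λ ∪ T ∪ K1 ⊆ M
  adj : ∀ x y, IsUnit4 (y - x) → VC Λ T b x → x + y - (1, 1) ∈ M

/-- the fixed open labels `Wt` of `F` against those of the reference environment, `W` (open ties) -/
structure AgrO (W Wt M Λ T W1 : Finset (ℤ × ℤ)) (b o : ℤ × ℤ → ℤ × ℤ) : Prop where
  tie : ∀ l ∈ T, l ∉ Wt
  lam : ∀ l ∈ Λ, l ∈ W → l ∈ Wt
  wall : ∀ e ∈ T, ∀ e' ∈ T, Co (Wt ∩ M) (o e) (o e')
  fix : ∀ x y, IsUnit4 (y - x) → VO Λ T b x → (x + y ∈ W1 ∨ (x + y ∈ Wt ∧ x + y ∉ W)) →
    ∀ e ∈ T, Co (Wt ∩ M) (o e) x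

/-- the same for closed ties, `E` : random labels -/
structure AgrC (E W Wt M Λ T K1 : Finset (ℤ × ℤ)) (b o : ℤ × ℤ → ℤ × ℤ) : Prop where
  tie : ∀ l ∈ T, l ∉ Wt
  lam : ∀ l ∈ Λ, l ∈ Wt → l ∈ W
  wall : ∀ e ∈ T, ∀ e' ∈ T, Co (du (M \ E) Wt) (o e) (o e')
  fix : ∀ x y, IsUnit4 (y - x) → VC Λ T b x →
    (x + y - (1, 1) ∈ K1 ∨ (x + y - (1, 1) ∈ W ∧ x + y - (1, 1) ∉ Wt)) →
    ∀ e ∈ T, Co (du (M \ E) Wt) (o e) x

variable {X : Env} {Λ Ti W1 K1 Wm Go G τ Wt A B : Finset (ℤ × ℤ)} {tv tu tb te : ℤ × ℤ → ℤ × ℤ}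

lemma AgrO.self (h : TiesO X W Ti W1 tv tu) (hM : W1 ⊆ M) : AgrO W W M Λ Ti W1 tv tu where
  tie l h1 h2 := disjoint_left.1 h.disj h1 h2
  lam _ _ h1 := h1
  wall e he e' he' := (h.conn e he e' he').mono fun _ hl => mem_inter.2 ⟨h.w1 hl, hM hl⟩
  fix x y h1 _ h3 e he := by
    rcases h3 with h3 | h3
    · exact (h.conn' x y h1 h3 e he).mono fun _ hl => mem_inter.2 ⟨h.w1 hl, hM hl⟩
    · exact absurd h3.1 h3.2

lemma AgrC.self (h : TiesC X W Ti K1 tb te) (hM : K1 ⊆ M) : AgrC X.E W W M Λ Ti K1 tb te := by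
  have m : du K1 ∅ ⊆ du (M \ X.E) W := du_mono fun l hl _ =>
    ⟨mem_sdiff.2 ⟨hM hl, disjoint_left.1 h.kE hl⟩, disjoint_left.1 h.kW hl⟩
  refine ⟨fun l h1 h2 => disjoint_left.1 h.disj h1 h2, fun _ _ h1 => h1,
    fun e he e' he' => (h.conn e he e' he').mono m, fun x y h1 _ h3 e he => ?_⟩
  rcases h3 with h3 | h3
  · exact (h.conn' x y h1 h3 e he).mono m
  · exact absurd h3.1 h3.2

/-- the first label of `B` on a path -/
lemma co_first (h : Co (A ∪ B) u v) : Co A u v ∨ ∃ x y, Co A u x ∧ IsUnit4 (y - x) ∧ x + y ∈ B := by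
  induction h with
  | refl => exact Or.inl (Co.refl _ _)
  | @tail a b _ hab ih =>
    rcases ih with ih | ih
    · rcases mem_union.1 hab.2 with hl | hl
      · exact Or.inl (ih.tail ⟨hab.1, hl⟩)
      · exact Or.inr ⟨a, b, ih, hab.1, hl⟩
    · exact Or.inr ih

/-- one toggle of an open tie. `Go` : the open random labels other than the ties of this colour;
`W` : fixed open labels of the reference, `Wt` : of `F`. -/
theorem F_tie_open' (hF : Tog X.E Wt M F) (hM : MskO M Λ Ti Wm tv)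
    (hT : TiesO X W Ti W1 tv tu) (hW : AgrO W Wt M Λ Ti W1 tv tu) (hGo : Go ⊆ X.E \ Ti) (hτ : τ ⊆ Ti)
    (he : e ∈ Ti) (heτ : e ∉ τ)
    (hcase : FreeO (Go ∪ (W \ W1)) W1 Λ tv tu e ∨
      ∃ e' ∈ τ, Co ((Go ∪ (W \ W1)) ∩ Λ) (tv e) (tv e')) :
    F (Go ∪ τ) = F (Go ∪ insert e τ) := by
  classical
  set G := Go ∪ (W \ W1) with hG
  have hω : Go ∪ τ ⊆ X.E := union_subset (hGo.trans sdiff_subset) (hτ.trans hT.sub)
  have heW0 : e ∉ Wt := hW.tie e he
  have heGo : e ∉ Go ∪ τ := by
    rw [mem_union, not_or]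
    exact ⟨fun h => (mem_sdiff.1 (hGo h)).2 he, heτ⟩
  rw [union_insert]
  have heM : e ∈ M := hM.sub (mem_union_left _ (mem_union_right _ he))
  have hu := hT.unit e he
  have hue := hT.ends e he
  have m1 : G ∩ Λ ⊆ (Go ∪ τ ∪ Wt) ∩ M := by
    intro l hl
    rw [mem_inter] at hl
    refine mem_inter.2 ⟨?_, hM.sub (mem_union_left _ (mem_union_left _ hl.2))⟩
    rcases mem_union.1 hl.1 with h1 | h1
    · exact mem_union_left _ (mem_union_left _ h1)
    · exact mem_union_right _ (hW.lam l hl.2 (mem_sdiff.1 h1).1)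
  have m3 : Wt ∩ M ⊆ (Go ∪ τ ∪ Wt) ∩ M := inter_subset_inter_right subset_union_right
  have hjoin : ∀ e' ∈ τ, Co (G ∩ Λ) (tv e) (tv e') →
      Co ((Go ∪ τ ∪ Wt) ∩ M) (tu e) (tv e) := by
    intro e' he' h1
    have h3 : Co ((Go ∪ τ ∪ Wt) ∩ M) (tu e') (tv e') := by
      refine Relation.ReflTransGen.single ⟨hT.unit e' (hτ he'), ?_⟩
      rw [hT.ends e' (hτ he')]
      exact mem_inter.2 ⟨mem_union_left _ (mem_union_right _ he'),
        hM.sub (mem_union_left _ (mem_union_right _ (hτ he')))⟩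
    exact (((hW.wall e he e' (hτ he')).mono m3).trans h3).trans (h1.mono m1).symm
  by_cases hA : Co ((Go ∪ τ ∪ Wt) ∩ M) (tu e) (tv e)
  · exact hF.A _ hω e (hT.sub he) heM heW0 heGo _ _ hu hue hA
  · have hsmall : SmallO G Λ (tv e) := by
      rcases hcase with (h | h) | ⟨e', h1, h2⟩
      · exact h
      · exfalso
        apply hA
        rcases co_first h.symm with h | ⟨x, y, h1, h2, h3⟩
        · exact (h.mono m1).symm
        · exact ((hW.fix x y h2 (VO_of_co (G := G) he h1) (Or.inl h3) e he).mono m3).trans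
            (h1.mono m1).symm
      · exact absurd (hjoin e' h1 h2) hA
    have hfull : ∀ x, Co ((Go ∪ τ ∪ Wt) ∩ M) (tv e) x → Co (G ∩ Λ) (tv e) x := by
      intro x hx
      induction hx with
      | refl => exact Co.refl _ _
      | @tail a b _ hab ih =>
        have hl := (mem_inter.1 hab.2).1
        rcases mem_union.1 hl with hl | hl
        · rcases mem_union.1 hl with hl | hl
          · have hlG : a + b ∈ G := mem_union_left _ hl
            exact ih.tail ⟨hab.1, mem_inter.2 ⟨hlG, hsmall a b ih hab.1 hlG⟩⟩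
          · exfalso
            have h5 := hT.unit _ (hτ hl)
            have h6 := hT.ends _ (hτ hl)
            rcases end_cases h5 h6 hab.1 rfl with ⟨h7, -⟩ | ⟨h7, -⟩
            · apply hA
              have h8 := (hW.wall e he _ (hτ hl)).mono m3
              rw [← h7] at h8
              exact h8.trans (ih.mono m1).symm
            · apply hA
              exact hjoin _ hl (by rw [← h7]; exact ih)
        · by_cases hl1 : a + b ∈ W1
          · exfalso
            apply hA
            exact ((hW.fix a b hab.1 (VO_of_co (G := G) he ih) (Or.inl hl1) e he).mono m3).trans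
              (ih.mono m1).symm
          by_cases hl2 : a + b ∈ W
          · have hlG : a + b ∈ G := mem_union_right _ (mem_sdiff.2 ⟨hl2, hl1⟩)
            exact ih.tail ⟨hab.1, mem_inter.2 ⟨hlG, hsmall a b ih hab.1 hlG⟩⟩
          · exfalso
            apply hA
            exact ((hW.fix a b hab.1 (VO_of_co (G := G) he ih) (Or.inr ⟨hl, hl2⟩) e he).mono
              m3).trans (ih.mono m1).symm
    refine hF.B hω (hT.sub he) heM heW0 heGo hu hue (fun h => ?_) fun x y h3 h4 => ?_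
    · exact hA ((hfull _ h.symm).mono m1).symm
    · exact hM.adj x y h4 (VO_of_co (G := G) he (hfull x h3))

/-- one toggle of an open tie, the reference has the same fixed labels -/
theorem F_tie_open (hF : Tog X.E W M F) (hM : MskO M Λ Ti W1 tv)
    (hT : TiesO X W Ti W1 tv tu) (hGo : Go ⊆ X.E \ Ti) (hτ : τ ⊆ Ti)
    (he : e ∈ Ti) (heτ : e ∉ τ)
    (hcase : FreeO (Go ∪ (W \ W1)) W1 Λ tv tu e ∨
      ∃ e' ∈ τ, Co ((Go ∪ (W \ W1)) ∩ Λ) (tv e) (tv e')) :
    F (Go ∪ τ) = F (Go ∪ insert e τ) :=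
  F_tie_open' hF hM hT (AgrO.self hT (subset_union_right.trans hM.sub)) hGo hτ he heτ hcase

/-- one toggle of a closed tie. `Go` : the open random labels other than the ties of this colour;
`τ` : closed ties. -/
theorem F_tie_closed' (hF : Tog X.E Wt M F) (hM : MskC M Λ Ti Wm tb)
    (hT : TiesC X W Ti K1 tb te) (hW : AgrC X.E W Wt M Λ Ti K1 tb te) (hGo : Go ⊆ X.E \ Ti) (hΛ : Disjoint Λ Ti)
    (hτ : τ ⊆ Ti) (he : e ∈ Ti) (heτ : e ∉ τ)
    (hcase : FreeC (Go ∪ W) Ti K1 Λ tb te e ∨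
      ∃ e' ∈ τ, Co (du Λ (Go ∪ W)) (tb e) (tb e')) :
    F (Go ∪ (Ti \ τ)) = F (Go ∪ (Ti \ insert e τ)) := by
  classical
  set G := Go ∪ W with hG
  set ω := Go ∪ (Ti \ insert e τ) with hωdef
  have hω : ω ⊆ X.E := union_subset (hGo.trans sdiff_subset) (sdiff_subset.trans hT.sub)
  have hins : Go ∪ (Ti \ τ) = insert e ω := by
    rw [hωdef]
    ext l
    simp only [mem_union, mem_sdiff, mem_insert]
    by_cases h : l = e
    · subst h; tauto
    · tauto
  have heW0 : e ∉ Wt := hW.tie e he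
  have heω : e ∉ ω := by
    rw [hωdef, mem_union, not_or]
    refine ⟨fun h => (mem_sdiff.1 (hGo h)).2 he, fun h => ?_⟩
    exact (mem_sdiff.1 h).2 (mem_insert_self _ _)
  rw [hins]
  symm
  have heM : e ∈ M := hM.sub (mem_union_left _ (mem_union_right _ he))
  have hu := hT.unit e he
  have hue := hT.ends e he
  have m1 : du Λ G ⊆ du (M.erase e) (ω ∪ Wt) := by
    refine du_mono fun l h1 h2 => ?_
    have h3 : l ∉ Ti := fun h => disjoint_left.1 hΛ h1 h
    refine ⟨mem_erase.2 ⟨fun h => h3 (h ▸ he), hM.sub (mem_union_left _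
      (mem_union_left _ h1))⟩, fun h => ?_⟩
    rcases mem_union.1 h with h | h
    · rcases mem_union.1 h with h | h
      · exact h2 (mem_union_left _ h)
      · exact h3 (mem_sdiff.1 h).1
    · exact h2 (mem_union_right _ (hW.lam l h1 h))
  have m3 : du (M \ X.E) Wt ⊆ du (M.erase e) (ω ∪ Wt) := by
    refine du_mono fun l h1 h2 => ?_
    obtain ⟨h3, h4⟩ := mem_sdiff.1 h1
    refine ⟨mem_erase.2 ⟨fun h => h4 (h ▸ hT.sub he), h3⟩, fun h => ?_⟩
    rcases mem_union.1 h with h | h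
    · exact h4 (hω h)
    · exact h2 h
  have hjoin : ∀ e' ∈ τ, Co (du Λ G) (tb e) (tb e') →
      Co (du (M.erase e) (ω ∪ Wt)) (te e) (tb e) := by
    intro e' he' h1
    have h3 : Co (du (M.erase e) (ω ∪ Wt)) (te e') (tb e') := by
      refine Relation.ReflTransGen.single ⟨hT.unit e' (hτ he'), ?_⟩
      have h4 : te e' + tb e' - (1, 1) = e' := face_sub (hT.ends e' (hτ he'))
      refine mem_du_of ?_ ?_
      · rw [h4]
        exact mem_erase.2 ⟨fun h => heτ (h ▸ he'), hM.sub (mem_union_left _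
          (mem_union_right _ (hτ he')))⟩
      · rw [h4, mem_union, hωdef, mem_union, not_or, not_or]
        refine ⟨⟨fun h => (mem_sdiff.1 (hGo h)).2 (hτ he'), fun h => ?_⟩,
          fun h => hW.tie _ (hτ he') h⟩
        exact (mem_sdiff.1 h).2 (mem_insert_of_mem he')
    exact (((hW.wall e he e' (hτ he')).mono m3).trans h3).trans (h1.mono m1).symm
  by_cases hA : Co (du (M.erase e) (ω ∪ Wt)) (te e) (tb e)
  · exact hF.C _ hω e (hT.sub he) heM heW0 heω _ _ hu hue hA
  · have hsmall : SmallC G Λ (Ti ∪ K1) (tb e) := by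
      rcases hcase with (h | h) | ⟨e', h1, h2⟩
      · exact h
      · exfalso
        apply hA
        rcases co_first h.symm with h | ⟨x, y, h1, h2, h3⟩
        · exact (h.mono m1).symm
        · exact ((hW.fix x y h2 (VC_of_co (G := G) he h1) (Or.inl (of_mem_du h3).1) e he).mono
            m3).trans (h1.mono m1).symm
      · exact absurd (hjoin e' h1 h2) hA
    have hfull : ∀ x, Co (du (M.erase e) (ω ∪ Wt)) (tb e) x → Co (du Λ G) (tb e) x := by
      intro x hx
      induction hx with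
      | refl => exact Co.refl _ _
      | @tail a b _ hab ih =>
        obtain ⟨hl1, hl⟩ := of_mem_du hab.2
        have hle : a + b - (1, 1) ≠ e := (mem_erase.1 hl1).1
        have hWa : a + b - (1, 1) ∉ W := by
          intro h5
          apply hA
          exact ((hW.fix a b hab.1 (VC_of_co (G := G) he ih)
            (Or.inr ⟨h5, fun h6 => hl (mem_union_right _ h6)⟩) e he).mono m3).trans (ih.mono m1).symm
        by_cases h1 : a + b - (1, 1) ∈ Λ
        · refine ih.tail ⟨hab.1, mem_du_of h1 fun h => ?_⟩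
          rcases mem_union.1 h with h | h
          · exact hl (mem_union_left _ (mem_union_left _ h))
          · exact hWa h
        · exfalso
          by_cases h2 : a + b - (1, 1) ∈ Ti
          · have h3 : a + b - (1, 1) ∈ τ := by
              by_contra h3
              apply hl
              refine mem_union_left _ (mem_union_right _ (mem_sdiff.2 ⟨h2, ?_⟩))
              rw [mem_insert, not_or]; exact ⟨hle, h3⟩
            rcases side_cases (hT.unit _ h2) (hT.ends _ h2) hab.1 (face_add rfl) with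
              ⟨h5, -⟩ | ⟨h5, -⟩
            · apply hA
              have h6 := (hW.wall e he _ h2).mono m3
              rw [← h5] at h6
              exact h6.trans (ih.mono m1).symm
            · apply hA
              exact hjoin _ h3 (by rw [← h5]; exact ih)
          · by_cases h3 : a + b - (1, 1) ∈ K1
            · apply hA
              exact ((hW.fix a b hab.1 (VC_of_co (G := G) he ih) (Or.inl h3) e he).mono m3).trans
                (ih.mono m1).symm
            · apply h1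
              refine hsmall a b ih hab.1 fun h4 => ?_
              rcases mem_union.1 h4 with h4 | h4
              · rcases mem_union.1 h4 with h4 | h4
                · exact hl (mem_union_left _ (mem_union_left _ h4))
                · exact hWa h4
              · rcases mem_union.1 h4 with h4 | h4
                · exact h2 h4
                · exact h3 h4
    refine hF.D hω (hT.sub he) heM heW0 heω (φ := tb e) (ψ := te e) (usym hu)
      (by rw [add_comm]; exact hue) (fun h => ?_) fun x y h3 h4 => ?_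
    · exact hA ((hfull _ h).mono m1).symm
    · exact hM.adj x y h4 (VC_of_co (G := G) he (hfull x h3))

/-- one toggle of a closed tie, the reference has the same fixed labels -/
theorem F_tie_closed (hF : Tog X.E W M F) (hM : MskC M Λ Ti K1 tb)
    (hT : TiesC X W Ti K1 tb te) (hGo : Go ⊆ X.E \ Ti) (hΛ : Disjoint Λ Ti)
    (hτ : τ ⊆ Ti) (he : e ∈ Ti) (heτ : e ∉ τ)
    (hcase : FreeC (Go ∪ W) Ti K1 Λ tb te e ∨
      ∃ e' ∈ τ, Co (du Λ (Go ∪ W)) (tb e) (tb e')) :
    F (Go ∪ (Ti \ τ)) = F (Go ∪ (Ti \ insert e τ)) :=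
  F_tie_closed' hF hM hT (AgrC.self hT (subset_union_right.trans hM.sub)) hGo hΛ hτ he heτ hcase

end Pool.Agent.H42.W
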