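import Mathlib
import Pool.Agent.H42.W.Tog
import Pool.Agent.H80.W.PatZ

set_option autoImplicit false
open Finset

/-! # Instances of `Tog`

`Tog.mono` : smaller masks; `Tog.lin` : finite linear combinations; `Tog.fix` : some labels frozen;
`Tog.ofPatF` : functionals of the link pattern of a zone; `tog_str` : the frozen half row. -/

namespace Pool.Agent.H42.W

open Pool.Agent.H75.Perc Pool.Agent.H75.TwoArm Pool.Agent.H75.Four Pool.Agent.H69.Q1
open Pool.Agent.Q1 Pool.Agent.H99.NC Pool.Agent.H60.Q1 Pool.Agent.H39.Q1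

variable {E E' W W' M M' S St Z : Finset (ℤ × ℤ)} {F G : Finset (ℤ × ℤ) → ℂ}

/-- smaller masks and smaller sets of labels -/
theorem Tog.mono (hF : Tog E W M F) (hM : M' ⊆ M) (hE : E' ⊆ E) : Tog E' W M' F where
  A w hw e he heM heW hew u v h1 h2 h := hF.A w (hw.trans hE) e (hE he) (hM heM) heW hew u v h1 h2
    (h.mono (inter_subset_inter_left hM))
  C w hw e he heM heW hew φ ψ h1 h2 h := hF.C w (hw.trans hE) e (hE he) (hM heM) heW hew φ ψ h1 h2
    (h.mono (du_mono fun _ hl hl' => ⟨erase_subset_erase _ hM hl, hl'⟩))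

/-- only the values on configurations of `E` matter -/
theorem Tog.congr (hF : Tog E W M F) (h : ∀ w ⊆ E, F w = G w) : Tog E W M G where
  A w hw e he heM heW hew u v h1 h2 h3 := by
    rw [← h w hw, ← h _ (insert_subset he hw)]
    exact hF.A w hw e he heM heW hew u v h1 h2 h3
  C w hw e he heM heW hew φ ψ h1 h2 h3 := by
    rw [← h w hw, ← h _ (insert_subset he hw)]
    exact hF.C w hw e he heM heW hew φ ψ h1 h2 h3

/-- linear combinations -/
theorem Tog.lin {κ : Type*} {K : Finset κ} {wt : κ → ℂ} {Fk : κ → Finset (ℤ × ℤ) → ℂ}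
    (h : ∀ k ∈ K, Tog E W M (Fk k)) : Tog E W M (fun w => ∑ k ∈ K, wt k * Fk k w) where
  A w hw e he heM heW hew u v h1 h2 h3 := sum_congr rfl fun k hk => by
    rw [(h k hk).A w hw e he heM heW hew u v h1 h2 h3]
  C w hw e he heM heW hew φ ψ h1 h2 h3 := sum_congr rfl fun k hk => by
    rw [(h k hk).C w hw e he heM heW hew φ ψ h1 h2 h3]

/-- the labels of `St` have a fixed state `S ⊆ St`; they are not in the mask -/
theorem Tog.fix (hF : Tog E W M F) (hE : E' ⊆ E) (hSE : S ⊆ E) (hS : S ⊆ St)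
    (hM : M' ⊆ M) (hd : Disjoint M' St) : Tog E' W M' (fun w => F (w ∪ S)) where
  A w hw e he heM heW hew u v h1 h2 h := by
    have heS : e ∉ S := fun h3 => disjoint_left.1 hd heM (hS h3)
    rw [insert_union]
    refine hF.A _ (union_subset (hw.trans hE) hSE) e (hE he) (hM heM) heW ?_ u v h1 h2 ?_
    · rw [mem_union, not_or]; exact ⟨hew, heS⟩
    · refine h.mono fun l hl => ?_
      obtain ⟨g1, g2⟩ := mem_inter.1 hl
      refine mem_inter.2 ⟨?_, hM g2⟩
      rcases mem_union.1 g1 with g1 | g1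
      · exact mem_union_left _ (mem_union_left _ g1)
      · exact mem_union_right _ g1
  C w hw e he heM heW hew φ ψ h1 h2 h := by
    have heS : e ∉ S := fun h3 => disjoint_left.1 hd heM (hS h3)
    rw [insert_union]
    refine hF.C _ (union_subset (hw.trans hE) hSE) e (hE he) (hM heM) heW ?_ φ ψ h1 h2 ?_
    · rw [mem_union, not_or]; exact ⟨hew, heS⟩
    · refine h.mono (du_mono fun l hl hl' => ?_)
      refine ⟨erase_subset_erase _ hM hl, fun g => ?_⟩
      rcases mem_union.1 g with g | g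
      · rcases mem_union.1 g with g | g
        · exact hl' (mem_union_left _ g)
        · exact disjoint_left.1 hd (mem_erase.1 hl).2 (hS g)
      · exact hl' (mem_union_right _ g)

/-- **The frozen half row**: a sum over the states of the labels `St`, which are not in the mask. -/
theorem tog_str (hF : Tog E W M F) (hE : E' ⊆ E) (hSt : St ⊆ E) (hM : M' ⊆ M)
    (hd : Disjoint M' St) (wt : Finset (ℤ × ℤ) → ℂ) :
    Tog E' W M' (fun w => ∑ S ∈ St.powerset, wt S * F (w ∪ S)) :=
  Tog.lin fun _ hS => hF.fix hE ((mem_powerset.1 hS).trans hSt) (mem_powerset.1 hS) hM hd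

/-- **Functionals of the link pattern of a zone.** -/
theorem Tog.ofPatF {Lg : Set (ℤ × ℤ)} (h : H80.W.PatF Z Lg F) :
    Tog E W Z (fun w => F ((w ∪ W) ∩ Z)) where
  A w _ e _ heM heW hew u v h1 h2 hj := by
    have e1 : (insert e w ∪ W) ∩ Z = insert e ((w ∪ W) ∩ Z) := by
      rw [insert_union, insert_inter_of_mem heM]
    rw [e1]
    refine h.A inter_subset_right heM (fun h3 => ?_) h1 h2 hj
    rcases mem_union.1 (mem_inter.1 h3).1 with h4 | h4
    · exact hew h4
    · exact heW h4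
  C w _ e _ heM heW hew φ ψ h1 h2 hj := by
    have e1 : (insert e w ∪ W) ∩ Z = insert e ((w ∪ W) ∩ Z) := by
      rw [insert_union, insert_inter_of_mem heM]
    rw [e1]
    refine h.C inter_subset_right heM (fun h3 => ?_) h1 h2 ?_
    · rcases mem_union.1 (mem_inter.1 h3).1 with h4 | h4
      · exact hew h4
      · exact heW h4
    · exact hj.mono (du_mono fun l hl hl' => ⟨hl, fun h3 => hl' (mem_inter.1 h3).1⟩)

/-- any function of the link pattern at the legs `Lg` -/
theorem patF_of {Lg : Set (ℤ × ℤ)} (hf : H80.W.ZF Z) (hv : H80.W.ZV Z)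
    (hL : ∀ c ∈ Lg, H80.W.Entry Z c) (Ψ : (ℤ × ℤ → ℤ × ℤ → Prop) → ℂ) :
    H80.W.PatF Z Lg (fun w => Ψ fun c d => c ∈ Lg ∧ H80.W.Pat Z w c d) where
  zf := hf
  zv := hv
  entry := hL
  pat w _ w' _ h := by
    congr 1
    funext c d
    exact propext (and_congr_right fun hc => h c hc d)

/-- the functional `w ↦ Ψ (Pat Z (w ∪ W))` -/
theorem tog_pat {Lg : Set (ℤ × ℤ)} (hf : H80.W.ZF Z) (hv : H80.W.ZV Z)
    (hL : ∀ c ∈ Lg, H80.W.Entry Z c) (Ψ : (ℤ × ℤ → ℤ × ℤ → Prop) → ℂ) :
    Tog E W Z (fun w => Ψ fun c d => c ∈ Lg ∧ H80.W.Pat Z (w ∪ W) c d) := by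
  refine (Tog.ofPatF (patF_of hf hv hL Ψ)).congr fun w _ => ?_
  congr 1
  funext c d
  exact propext (and_congr_right fun _ => H80.W.pat_inter)

end Pool.Agent.H42.W
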