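import Mathlib
import Pool.Agent.H42.W.Tog
import Pool.Agent.H39.Q1.AdmX

set_option autoImplicit false
open Finset

/-! # Filling and emptying a box crossed by one cluster, from single toggles

`S` : labels of a box, `ωo` : open labels outside `S`, `η ⊆ S`. If the crossing clusters of the box
without `S` are those of `t` and of the wall `w₀`, then `F (ωo ∪ η)` depends on `η` only through the bit:
`t` and `w₀` are joined inside the box or not. -/

namespace Pool.Agent.H42.W

open Pool.Agent.H75.Perc Pool.Agent.H75.TwoArm Pool.Agent.H75.Four Pool.Agent.H69.Q1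
open Pool.Agent.Q1 Pool.Agent.H99.NC Pool.Agent.H60.Q1 Pool.Agent.H39.Q1
open Pool.Agent.H20.Q1 (near_iff far_iff BR_ends BR_of_ends)

variable {E W M S Q A ωo η η' : Finset (ℤ × ℤ)} {F : Finset (ℤ × ℤ) → ℂ}
  {e u v w t w0 φ ψ x y : ℤ × ℤ} {r : ℤ}

lemma union_mid (A B C : Finset (ℤ × ℤ)) : A ∪ B ∪ C = A ∪ C ∪ B := by
  rw [union_assoc, union_comm B C, ← union_assoc]

/-- from a far vertex back to a near one: the first label of the inner set -/
lemma back_end {G H : Finset (ℤ × ℤ)} {P : ℤ × ℤ → Prop}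
    (hP : ∀ a b, IsUnit4 (b - a) → a + b ∈ H → a + b ∉ G → P a) (h : Co H x y) (hy : P y) :
    ∃ s, P s ∧ Co G x s := by
  have key : ∀ z, Co H x z → Co G x z ∨ ∃ s, P s ∧ Co G x s := by
    intro z hz
    induction hz with
    | refl => exact Or.inl (Co.refl _ _)
    | @tail a b _ hab ih =>
      rcases ih with ih | ih
      · by_cases hl : a + b ∈ G
        · exact Or.inl (ih.tail ⟨hab.1, hl⟩)
        · exact Or.inr ⟨a, hP a b hab.1 hab.2 hl, ih⟩
      · exact Or.inr ih
  rcases key y h with h1 | h1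
  · exact ⟨y, hy, h1⟩
  · exact h1

/-- the last label of a connection -/
lemma last_lab {G : Finset (ℤ × ℤ)} (h : Co G x y) : y = x ∨ ∃ z, IsUnit4 (z - y) ∧ y + z ∈ G := by
  rcases Relation.ReflTransGen.cases_tail h with h1 | ⟨p, -, h1⟩
  · exact Or.inl h1
  · exact Or.inr ⟨p, usym h1.1, by rw [add_comm]; exact h1.2⟩

/-! ### open clusters -/

/-- opening one more label of the box -/
lemma step_open (hF : Tog E W M F) (hSE : S ⊆ E) (hSW : Disjoint S W)
    (hSM : S ⊆ M) (hωo : ωo ⊆ E \ S) (hAM : (ωo ∪ W) ∩ BR w r ⊆ M)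
    (hty : ∀ s v, (∃ z, IsUnit4 (z - s) ∧ s + z ∈ S) → ¬ inR w (r - 1) v →
      Co ((ωo ∪ W) ∩ BR w r) v s →
      Co ((ωo ∪ W) ∩ BR w r) s t ∨ Co ((ωo ∪ W) ∩ BR w r) s w0)
    (hadj : ∀ x z y, IsUnit4 (z - x) → x + z ∈ (ωo ∪ W) ∩ BR w r ∪ S →
      ¬ Co ((ωo ∪ W) ∩ BR w r) x w0 → IsUnit4 (y - x) → x + y ∈ M)
    (hη : η ⊆ S) (he : e ∈ S) (heη : e ∉ η) (h1 : IsUnit4 (v - u)) (h2 : u + v = e) :
    F (ωo ∪ η) = F (insert e (ωo ∪ η)) ∨
      (¬ Co ((ωo ∪ W) ∩ BR w r ∪ η) u v ∧
        (Co ((ωo ∪ W) ∩ BR w r ∪ η) v t ∨ Co ((ωo ∪ W) ∩ BR w r ∪ η) v w0)) := by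
  classical
  set A := (ωo ∪ W) ∩ BR w r with hA
  have hE : ωo ∪ η ⊆ E := union_subset (hωo.trans sdiff_subset) (hη.trans hSE)
  have heE := hSE he
  have heW : e ∉ W := fun h => disjoint_left.1 hSW he h
  have heo : e ∉ ωo ∪ η := by
    rw [mem_union, not_or]
    exact ⟨fun h => (mem_sdiff.1 (hωo h)).2 he, heη⟩
  have hmono : A ∪ η ⊆ (ωo ∪ η ∪ W) ∩ M := by
    intro l hl
    rcases mem_union.1 hl with h | h
    · refine mem_inter.2 ⟨?_, hAM h⟩
      rw [union_mid]
      exact mem_union_left _ (mem_inter.1 h).1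
    · exact mem_inter.2 ⟨mem_union_left _ (mem_union_right _ h), hSM (hη h)⟩
  by_cases hj : Co (A ∪ η) u v
  · left
    exact hF.A _ hE e heE (hSM he) heW heo _ _ h1 h2 (hj.mono hmono)
  by_cases ht : Co (A ∪ η) v t ∨ Co (A ∪ η) v w0
  · exact Or.inr ⟨hj, ht⟩
  left
  rw [not_or] at ht
  -- the cluster of `v` is confined
  have hvS : ∃ z, IsUnit4 (z - v) ∧ v + z ∈ S :=
    ⟨u, usym h1, by rw [add_comm, h2]; exact he⟩
  have hconf : ∀ x, Co (A ∪ η) v x → inR w (r - 1) x := by
    intro x hx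
    by_contra hfar
    obtain ⟨s, hs, hxs⟩ := back_end (G := A) (P := fun s => ∃ z, IsUnit4 (z - s) ∧ s + z ∈ S)
      (fun a b hab hl hl' => ⟨b, hab, hη ((mem_union.1 hl).resolve_left hl')⟩) hx.symm hvS
    rcases hty s x hs hfar hxs with h3 | h3
    · exact ht.1 ((hx.trans (hxs.mono subset_union_left)).trans (h3.mono subset_union_left))
    · exact ht.2 ((hx.trans (hxs.mono subset_union_left)).trans (h3.mono subset_union_left))
  have hfull : ∀ x, Co ((ωo ∪ η ∪ W) ∩ M) v x → Co (A ∪ η) v x := by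
    intro x hx
    induction hx with
    | refl => exact Co.refl _ _
    | @tail a b _ hab ih =>
      have hl := (mem_inter.1 hab.2).1
      rw [union_mid] at hl
      rcases mem_union.1 hl with hl | hl
      · refine ih.tail ⟨hab.1, mem_union_left _ (mem_inter.2 ⟨hl, ?_⟩)⟩
        have g1 := hconf a ih
        have g2 := unit_cases hab.1
        rw [inR_iff] at g1
        refine BR_of_ends hab.1 ?_ ?_
        · rw [inR_iff]; omega
        · rw [inR_iff]; omega
      · exact ih.tail ⟨hab.1, mem_union_right _ hl⟩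
  refine hF.B hE heE (hSM he) heW heo h1 h2 (fun h => hj (hfull _ h.symm).symm) ?_
  intro x y hx hxy
  have hx' := hfull x hx
  have hxw : ¬ Co A x w0 := fun h => ht.2 (hx'.trans (h.mono subset_union_left))
  rcases last_lab hx' with h3 | ⟨z, h3, h4⟩
  · rw [h3] at hxy hxw ⊢
    obtain ⟨z, hz1, hz2⟩ := hvS
    exact hadj v z y hz1 (mem_union_right _ hz2) hxw hxy
  · exact hadj x z y h3 (union_subset_union_right hη h4) hxw hxy

/-- **Filling and emptying, open clusters.** -/
theorem fill_open (hF : Tog E W M F) (hSE : S ⊆ E) (hSW : Disjoint S W)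
    (hSM : S ⊆ M) (hωo : ωo ⊆ E \ S) (hAM : (ωo ∪ W) ∩ BR w r ⊆ M)
    (hty : ∀ s v, (∃ z, IsUnit4 (z - s) ∧ s + z ∈ S) → ¬ inR w (r - 1) v →
      Co ((ωo ∪ W) ∩ BR w r) v s →
      Co ((ωo ∪ W) ∩ BR w r) s t ∨ Co ((ωo ∪ W) ∩ BR w r) s w0)
    (hadj : ∀ x z y, IsUnit4 (z - x) → x + z ∈ (ωo ∪ W) ∩ BR w r ∪ S →
      ¬ Co ((ωo ∪ W) ∩ BR w r) x w0 → IsUnit4 (y - x) → x + y ∈ M)
    (hodd : ∀ l ∈ S, (l.1 + l.2) % 2 = 1) (hη : η ⊆ S) :
    (Co ((ωo ∪ W) ∩ BR w r ∪ η) t w0 → F (ωo ∪ η) = F (ωo ∪ S)) ∧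
    (¬ Co ((ωo ∪ W) ∩ BR w r ∪ η) t w0 → F (ωo ∪ η) = F ωo) := by
  classical
  set A := (ωo ∪ W) ∩ BR w r with hA
  have hstep : ∀ {η' e u v}, η' ⊆ S → e ∈ S → e ∉ η' → IsUnit4 (v - u) → u + v = e →
      F (ωo ∪ η') = F (insert e (ωo ∪ η')) ∨
      (¬ Co (A ∪ η') u v ∧ (Co (A ∪ η') v t ∨ Co (A ∪ η') v w0)) :=
    fun g1 g2 g3 g4 g5 => step_open hF hSE hSW hSM hωo hAM hty hadj g1 g2 g3 g4 g5
  constructor
  · intro hj
    have key : ∀ B, B ⊆ S → F (ωo ∪ η) = F (ωo ∪ (η ∪ B)) := by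
      intro B
      induction B using Finset.induction_on with
      | empty => intro _; rw [union_empty]
      | insert e B heB ih =>
        intro hB
        have hB' : B ⊆ S := (subset_insert _ _).trans hB
        have heS : e ∈ S := hB (mem_insert_self _ _)
        rw [ih hB', union_insert]
        by_cases h1 : e ∈ η ∪ B
        · rw [insert_eq_of_mem h1]
        have hsub : η ∪ B ⊆ S := union_subset hη hB'
        have hjw : Co (A ∪ (η ∪ B)) t w0 := hj.mono (union_subset_union_right subset_union_left)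
        obtain ⟨s1, s2⟩ := ends_vx (hodd e heS)
        rw [union_insert]
        rcases hstep hsub heS h1 s1 s2 with h3 | ⟨h3, h4⟩
        · exact h3
        rcases hstep hsub heS h1 (usym s1) (by rw [add_comm]; exact s2) with h5 | ⟨-, h6⟩
        · exact h5
        exfalso
        apply h3
        have g1 : Co (A ∪ (η ∪ B)) (ev e) t := by
          rcases h4 with h4 | h4
          · exact h4
          · exact h4.trans hjw.symm
        have g2 : Co (A ∪ (η ∪ B)) (eu e) t := by
          rcases h6 with h6 | h6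
          · exact h6
          · exact h6.trans hjw.symm
        exact g2.trans g1.symm
    rw [key S (Subset.refl _), union_eq_right.2 hη]
  · intro hj
    have key : ∀ B, B ⊆ η → F ωo = F (ωo ∪ B) := by
      intro B
      induction B using Finset.induction_on with
      | empty => intro _; rw [union_empty]
      | insert e B heB ih =>
        intro hB
        have hB' : B ⊆ η := (subset_insert _ _).trans hB
        have heη : e ∈ η := hB (mem_insert_self _ _)
        have heS : e ∈ S := hη heη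
        rw [ih hB', union_insert]
        have hsub : B ⊆ S := hB'.trans hη
        obtain ⟨s1, s2⟩ := ends_vx (hodd e heS)
        rcases hstep hsub heS heB s1 s2 with h3 | ⟨h3, h4⟩
        · exact h3
        rcases hstep hsub heS heB (usym s1) (by rw [add_comm]; exact s2) with h5 | ⟨-, h6⟩
        · exact h5
        exfalso
        have m1 : A ∪ B ⊆ A ∪ η := union_subset_union_right hB'
        have m2 : Co (A ∪ η) (eu e) (ev e) := by
          refine Relation.ReflTransGen.single ⟨s1, ?_⟩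
          rw [s2]; exact mem_union_right _ heη
        rcases h4 with h4 | h4
        · rcases h6 with h6 | h6
          · exact h3 (h6.trans h4.symm)
          · exact hj (((h4.mono m1).symm.trans m2.symm).trans (h6.mono m1))
        · rcases h6 with h6 | h6
          · exact hj (((h6.mono m1).symm.trans m2).trans (h4.mono m1))
          · exact h3 (h6.trans h4.symm)
    exact (key η (Subset.refl _)).symm

/-! ### dual clusters -/

/-- opening one more label of the box, dual clusters -/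
lemma step_closed (hF : Tog E W M F) (hSE : S ⊆ E) (hSW : Disjoint S W) (hSr : S ⊆ BD w r)
    (hSM : S ⊆ M) (hωo : ωo ⊆ E \ S) (hAM : ∀ l ∈ BD w r, l ∉ ωo ∪ W → l ∈ M)
    (hty : ∀ s v, (∃ z, IsUnit4 (z - s) ∧ s + z - (1, 1) ∈ S) → ¬ inR w (r - 1) v →
      Co (du (BD w r \ S) (ωo ∪ W)) v s →
      Co (du (BD w r \ S) (ωo ∪ W)) s t ∨ Co (du (BD w r \ S) (ωo ∪ W)) s w0)
    (hadj : ∀ x z y, IsUnit4 (z - x) → x + z - (1, 1) ∈ BD w r → x + z - (1, 1) ∉ ωo ∪ W →
      ¬ Co (du (BD w r \ S) (ωo ∪ W)) x w0 → IsUnit4 (y - x) → x + y - (1, 1) ∈ M)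
    (hη : η ⊆ S) (he : e ∈ S) (heη : e ∉ η) (h1 : IsUnit4 (ψ - φ)) (h2 : φ + ψ = e + (1, 1)) :
    F (ωo ∪ η) = F (insert e (ωo ∪ η)) ∨
      (¬ Co (du ((BD w r).erase e) (ωo ∪ W ∪ η)) φ ψ ∧
        (Co (du ((BD w r).erase e) (ωo ∪ W ∪ η)) φ t ∨
          Co (du ((BD w r).erase e) (ωo ∪ W ∪ η)) φ w0)) := by
  classical
  set A := du (BD w r \ S) (ωo ∪ W) with hA
  set A' := du ((BD w r).erase e) (ωo ∪ W ∪ η) with hA'
  have hE : ωo ∪ η ⊆ E := union_subset (hωo.trans sdiff_subset) (hη.trans hSE)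
  have heE := hSE he
  have heW : e ∉ W := fun h => disjoint_left.1 hSW he h
  have heo : e ∉ ωo ∪ η := by
    rw [mem_union, not_or]
    exact ⟨fun h => (mem_sdiff.1 (hωo h)).2 he, heη⟩
  have hAA' : A ⊆ A' := by
    refine du_mono fun l hl hl' => ?_
    obtain ⟨g1, g2⟩ := mem_sdiff.1 hl
    refine ⟨mem_erase.2 ⟨fun h => g2 (h ▸ he), g1⟩, fun h => ?_⟩
    rcases mem_union.1 h with h | h
    · exact hl' h
    · exact g2 (hη h)
  have hmono : A' ⊆ du (M.erase e) (ωo ∪ η ∪ W) := by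
    refine du_mono fun l hl hl' => ?_
    obtain ⟨g1, g2⟩ := mem_erase.1 hl
    rw [union_mid]
    refine ⟨mem_erase.2 ⟨g1, hAM l g2 fun h => hl' (mem_union_left _ h)⟩, hl'⟩
  by_cases hj : Co A' φ ψ
  · left
    exact hF.C _ hE e heE (hSM he) heW heo _ _ h1 h2 (hj.mono hmono)
  by_cases ht : Co A' φ t ∨ Co A' φ w0
  · exact Or.inr ⟨hj, ht⟩
  left
  rw [not_or] at ht
  have hvS : ∃ z, IsUnit4 (z - φ) ∧ φ + z - (1, 1) ∈ S :=
    ⟨ψ, h1, by rw [face_sub h2]; exact he⟩
  have hconf : ∀ x, Co A' φ x → inR w (r - 1) x := by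
    intro x hx
    by_contra hfar
    obtain ⟨s, hs, hxs⟩ := back_end (G := A)
      (P := fun s => ∃ z, IsUnit4 (z - s) ∧ s + z - (1, 1) ∈ S)
      (fun a b hab hl hl' => ⟨b, hab, by
        obtain ⟨g1, g2⟩ := of_mem_du hl
        by_contra g3
        exact hl' (mem_du_of (mem_sdiff.2 ⟨(mem_erase.1 g1).2, g3⟩)
          fun g4 => g2 (mem_union_left _ g4))⟩) hx.symm hvS
    rcases hty s x hs hfar hxs with h3 | h3
    · exact ht.1 ((hx.trans (hxs.mono hAA')).trans (h3.mono hAA'))
    · exact ht.2 ((hx.trans (hxs.mono hAA')).trans (h3.mono hAA'))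
  have hfull : ∀ x, Co (du (M.erase e) (ωo ∪ η ∪ W)) φ x → Co A' φ x := by
    intro x hx
    induction hx with
    | refl => exact Co.refl _ _
    | @tail a b _ hab ih =>
      obtain ⟨g1, g2⟩ := of_mem_du hab.2
      rw [union_mid] at g2
      refine ih.tail ⟨hab.1, mem_du_of (mem_erase.2 ⟨(mem_erase.1 g1).1, ?_⟩) g2⟩
      have g3 := hconf a ih
      have g4 := unit_cases hab.1
      rw [inR_iff] at g3
      rw [mem_BD', sub_add_one]
      refine BR_of_ends hab.1 ?_ ?_
      · rw [inR_iff]; omega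
      · rw [inR_iff]; omega
  refine hF.D hE heE (hSM he) heW heo h1 h2 (fun h => hj (hfull _ h)) ?_
  intro x y hx hxy
  have hx' := hfull x hx
  have hxw : ¬ Co A x w0 := fun h => ht.2 (hx'.trans (h.mono hAA'))
  rcases last_lab hx' with h3 | ⟨z, h3, h4⟩
  · rw [h3] at hxy hxw ⊢
    refine hadj φ ψ y h1 ?_ ?_ hxw hxy
    · rw [face_sub h2]; exact hSr he
    · rw [face_sub h2, mem_union, not_or]
      exact ⟨fun h => (mem_sdiff.1 (hωo h)).2 he, heW⟩
  · obtain ⟨g1, g2⟩ := of_mem_du h4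
    exact hadj x z y h3 (mem_erase.1 g1).2 (fun h => g2 (mem_union_left _ h)) hxw hxy

/-- **Filling and emptying, dual clusters.** -/
theorem fill_closed (hF : Tog E W M F) (hSE : S ⊆ E) (hSW : Disjoint S W) (hSr : S ⊆ BD w r)
    (hSM : S ⊆ M) (hωo : ωo ⊆ E \ S) (hAM : ∀ l ∈ BD w r, l ∉ ωo ∪ W → l ∈ M)
    (hty : ∀ s v, (∃ z, IsUnit4 (z - s) ∧ s + z - (1, 1) ∈ S) → ¬ inR w (r - 1) v →
      Co (du (BD w r \ S) (ωo ∪ W)) v s →
      Co (du (BD w r \ S) (ωo ∪ W)) s t ∨ Co (du (BD w r \ S) (ωo ∪ W)) s w0)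
    (hadj : ∀ x z y, IsUnit4 (z - x) → x + z - (1, 1) ∈ BD w r → x + z - (1, 1) ∉ ωo ∪ W →
      ¬ Co (du (BD w r \ S) (ωo ∪ W)) x w0 → IsUnit4 (y - x) → x + y - (1, 1) ∈ M)
    (hodd : ∀ l ∈ S, (l.1 + l.2) % 2 = 1) (hη : η ⊆ S) :
    (Co (du (BD w r) (ωo ∪ W ∪ η)) t w0 → F (ωo ∪ η) = F ωo) ∧
    (¬ Co (du (BD w r) (ωo ∪ W ∪ η)) t w0 → F (ωo ∪ η) = F (ωo ∪ S)) := by
  classical
  have hstep : ∀ {η' e φ ψ}, η' ⊆ S → e ∈ S → e ∉ η' → IsUnit4 (ψ - φ) → φ + ψ = e + (1, 1) →
      F (ωo ∪ η') = F (insert e (ωo ∪ η')) ∨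
      (¬ Co (du ((BD w r).erase e) (ωo ∪ W ∪ η')) φ ψ ∧
        (Co (du ((BD w r).erase e) (ωo ∪ W ∪ η')) φ t ∨
          Co (du ((BD w r).erase e) (ωo ∪ W ∪ η')) φ w0)) :=
    fun g1 g2 g3 g4 g5 => step_closed hF hSE hSW hSr hSM hωo hAM hty hadj g1 g2 g3 g4 g5
  constructor
  · intro hj
    have key : ∀ B, B ⊆ η → F ωo = F (ωo ∪ B) := by
      intro B
      induction B using Finset.induction_on with
      | empty => intro _; rw [union_empty]
      | insert e B heB ih =>
        intro hB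
        have hB' : B ⊆ η := (subset_insert _ _).trans hB
        have heη : e ∈ η := hB (mem_insert_self _ _)
        have heS : e ∈ S := hη heη
        rw [ih hB', union_insert]
        have hsub : B ⊆ S := hB'.trans hη
        have hjw : Co (du ((BD w r).erase e) (ωo ∪ W ∪ B)) t w0 := by
          refine hj.mono (du_mono fun l hl hl' => ?_)
          refine ⟨mem_erase.2 ⟨fun h => hl' (mem_union_right _ (h ▸ heη)), hl⟩, fun h => hl' ?_⟩
          rcases mem_union.1 h with h | h
          · exact mem_union_left _ h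
          · exact mem_union_right _ (hB' h)
        obtain ⟨s1, s2⟩ := sides_fi (hodd e heS)
        rcases hstep hsub heS heB s1 s2 with h3 | ⟨h3, h4⟩
        · exact h3
        rcases hstep hsub heS heB (usym s1) (by rw [add_comm]; exact s2) with h5 | ⟨-, h6⟩
        · exact h5
        exfalso
        apply h3
        have g1 : Co (du ((BD w r).erase e) (ωo ∪ W ∪ B)) (fi (zu e)) t := by
          rcases h4 with h4 | h4
          · exact h4
          · exact h4.trans hjw.symm
        have g2 : Co (du ((BD w r).erase e) (ωo ∪ W ∪ B)) (fi (zv e)) t := by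
          rcases h6 with h6 | h6
          · exact h6
          · exact h6.trans hjw.symm
        exact g1.trans g2.symm
    exact (key η (Subset.refl _)).symm
  · intro hj
    have key : ∀ B, B ⊆ S → F (ωo ∪ η) = F (ωo ∪ (η ∪ B)) := by
      intro B
      induction B using Finset.induction_on with
      | empty => intro _; rw [union_empty]
      | insert e B heB ih =>
        intro hB
        have hB' : B ⊆ S := (subset_insert _ _).trans hB
        have heS : e ∈ S := hB (mem_insert_self _ _)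
        rw [ih hB', union_insert]
        by_cases h1 : e ∈ η ∪ B
        · rw [insert_eq_of_mem h1]
        have hsub : η ∪ B ⊆ S := union_subset hη hB'
        obtain ⟨s1, s2⟩ := sides_fi (hodd e heS)
        rw [union_insert]
        rcases hstep hsub heS h1 s1 s2 with h3 | ⟨h3, h4⟩
        · exact h3
        rcases hstep hsub heS h1 (usym s1) (by rw [add_comm]; exact s2) with h5 | ⟨-, h6⟩
        · exact h5
        exfalso
        have m0 : du ((BD w r).erase e) (ωo ∪ W ∪ (η ∪ B)) ⊆ du (BD w r) (ωo ∪ W ∪ η) := by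
          refine du_mono fun l hl hl' => ⟨(mem_erase.1 hl).2, fun h => hl' ?_⟩
          rcases mem_union.1 h with h | h
          · exact mem_union_left _ h
          · exact mem_union_right _ (mem_union_left _ h)
        have m2 : Co (du (BD w r) (ωo ∪ W ∪ η)) (fi (zu e)) (fi (zv e)) := by
          refine Relation.ReflTransGen.single ⟨s1, mem_du_of ?_ ?_⟩
          · rw [face_sub s2]; exact hSr heS
          · rw [face_sub s2, mem_union, mem_union, not_or, not_or]
            exact ⟨⟨fun h => (mem_sdiff.1 (hωo h)).2 heS, fun h => disjoint_left.1 hSW heS h⟩,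
              fun h => h1 (mem_union_left _ h)⟩
        rcases h4 with h4 | h4
        · rcases h6 with h6 | h6
          · exact h3 (h4.trans h6.symm)
          · exact hj (((h4.mono m0).symm.trans m2).trans (h6.mono m0))
        · rcases h6 with h6 | h6
          · exact hj (((h6.mono m0).symm.trans m2.symm).trans (h4.mono m0))
          · exact h3 (h4.trans h6.symm)
    rw [key S (Subset.refl _), union_eq_right.2 hη]

end Pool.Agent.H42.W
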