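import Mathlib
import Pool.Agent.H42.W.Fill
import Pool.Agent.H39.W.Fun

set_option autoImplicit false
open Finset

/-! # The fields of the abstract chapter C from single toggles

`VF F Bb B TT fm co ω P` : mean of `F` over the labels of `Bb \ B`, the ties of `P` are tied. If `F`
does not see the toggles of joined and free labels of a mask around every wall (`Tog`), the functional
`VF F` has the fields `VTog`, `VTogX`, `VLoc`. -/

namespace Pool.Agent.H42.W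

open Pool.Agent.H75.Perc Pool.Agent.H75.TwoArm Pool.Agent.H75.Four Pool.Agent.H69.Q1
open Pool.Agent.Q1 Pool.Agent.H25.Q1.Add Pool.Agent.H99.NC Pool.Agent.H49.Perc
open Pool.Agent.H60.Q1 Pool.Agent.H39.Q1
open Pool.Agent.H15.W (DV TotV Tot0V VTog VTogX VLoc DV_free farV)
open Pool.Agent.H20.Q1 (Eh CS hf near_iff far_iff BR_ends BR_of_ends)

/-! ### one cluster crosses: the two values of the functional -/

section agree

variable {E W Wt M w S ωo η : Finset (ℤ × ℤ)} {F : Finset (ℤ × ℤ) → ℂ} {z t w0 : ℤ × ℤ} {r : ℤ}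

lemma cap_agree (hag : ∀ l ∈ BR z r, (l ∈ Wt ↔ l ∈ W)) : (ωo ∪ Wt) ∩ BR z r = (ωo ∪ W) ∩ BR z r := by
  ext l
  simp only [mem_inter, mem_union]
  constructor
  · rintro ⟨h1, h2⟩
    rw [hag l h2] at h1
    exact ⟨h1, h2⟩
  · rintro ⟨h1, h2⟩
    rw [← hag l h2] at h1
    exact ⟨h1, h2⟩

lemma du_agree {A : Finset (ℤ × ℤ)} (hA : A ⊆ BD z r) (hag : ∀ l ∈ BD z r, (l ∈ Wt ↔ l ∈ W)) :
    du A (ωo ∪ Wt ∪ η) = du A (ωo ∪ W ∪ η) := by
  refine Subset.antisymm (du_mono fun l hl hl' => ⟨hl, fun h => hl' ?_⟩)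
    (du_mono fun l hl hl' => ⟨hl, fun h => hl' ?_⟩)
  · rcases mem_union.1 h with h | h
    · rcases mem_union.1 h with h | h
      · exact mem_union_left _ (mem_union_left _ h)
      · exact mem_union_left _ (mem_union_right _ ((hag l (hA hl)).2 h))
    · exact mem_union_right _ h
  · rcases mem_union.1 h with h | h
    · rcases mem_union.1 h with h | h
      · exact mem_union_left _ (mem_union_left _ h)
      · exact mem_union_left _ (mem_union_right _ ((hag l (hA hl)).1 h))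
    · exact mem_union_right _ h

lemma du_agree' {A : Finset (ℤ × ℤ)} (hA : A ⊆ BD z r) (hag : ∀ l ∈ BD z r, (l ∈ Wt ↔ l ∈ W)) :
    du A (ωo ∪ Wt) = du A (ωo ∪ W) := by
  have := du_agree (ωo := ωo) (η := ∅) hA hag
  rwa [union_empty, union_empty] at this

/-- `fill_open` with the labels of the reference -/
theorem fill_open' (hF : Tog E Wt M F) (hag : ∀ l ∈ BR z r, (l ∈ Wt ↔ l ∈ W)) (hSE : S ⊆ E)
    (hSW : Disjoint S W) (hSr : S ⊆ BR z r)
    (hSM : S ⊆ M) (hωo : ωo ⊆ E \ S) (hAM : (ωo ∪ W) ∩ BR z r ⊆ M)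
    (hty : ∀ s v, (∃ z, IsUnit4 (z - s) ∧ s + z ∈ S) → ¬ inR z (r - 1) v →
      Co ((ωo ∪ W) ∩ BR z r) v s →
      Co ((ωo ∪ W) ∩ BR z r) s t ∨ Co ((ωo ∪ W) ∩ BR z r) s w0)
    (hadj : ∀ x u y, IsUnit4 (u - x) → x + u ∈ (ωo ∪ W) ∩ BR z r ∪ S →
      ¬ Co ((ωo ∪ W) ∩ BR z r) x w0 → IsUnit4 (y - x) → x + y ∈ M)
    (hodd : ∀ l ∈ S, (l.1 + l.2) % 2 = 1) (hη : η ⊆ S) :
    (Co ((ωo ∪ W) ∩ BR z r ∪ η) t w0 → F (ωo ∪ η) = F (ωo ∪ S)) ∧
    (¬ Co ((ωo ∪ W) ∩ BR z r ∪ η) t w0 → F (ωo ∪ η) = F ωo) := by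
  have e := cap_agree (ωo := ωo) hag
  rw [← e] at hAM hadj ⊢
  refine fill_open hF hSE ?_ hSM hωo hAM ?_ hadj hodd hη
  · rw [disjoint_left] at hSW ⊢
    exact fun l h1 h2 => hSW h1 ((hag l (hSr h1)).1 h2)
  · rw [e]; exact hty

/-- `fill_closed` with the labels of the reference -/
theorem fill_closed' (hF : Tog E Wt M F) (hag : ∀ l ∈ BD z r, (l ∈ Wt ↔ l ∈ W)) (hSE : S ⊆ E)
    (hSW : Disjoint S W) (hSr : S ⊆ BD z r)
    (hSM : S ⊆ M) (hωo : ωo ⊆ E \ S) (hAM : ∀ l ∈ BD z r, l ∉ ωo ∪ W → l ∈ M)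
    (hty : ∀ s v, (∃ u, IsUnit4 (u - s) ∧ s + u - (1, 1) ∈ S) → ¬ inR z (r - 1) v →
      Co (du (BD z r \ S) (ωo ∪ W)) v s →
      Co (du (BD z r \ S) (ωo ∪ W)) s t ∨ Co (du (BD z r \ S) (ωo ∪ W)) s w0)
    (hadj : ∀ x u y, IsUnit4 (u - x) → x + u - (1, 1) ∈ BD z r → x + u - (1, 1) ∉ ωo ∪ W →
      ¬ Co (du (BD z r \ S) (ωo ∪ W)) x w0 → IsUnit4 (y - x) → x + y - (1, 1) ∈ M)
    (hodd : ∀ l ∈ S, (l.1 + l.2) % 2 = 1) (hη : η ⊆ S) :
    (Co (du (BD z r) (ωo ∪ W ∪ η)) t w0 → F (ωo ∪ η) = F ωo) ∧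
    (¬ Co (du (BD z r) (ωo ∪ W ∪ η)) t w0 → F (ωo ∪ η) = F (ωo ∪ S)) := by
  have e1 := du_agree' (ωo := ωo) (A := BD z r \ S) sdiff_subset hag
  have e2 := du_agree (ωo := ωo) (η := η) (A := BD z r) (Subset.refl _) hag
  have e3 : ∀ l ∈ BD z r, (l ∈ ωo ∪ Wt ↔ l ∈ ωo ∪ W) := fun l hl => by
    rw [mem_union, mem_union, hag l hl]
  rw [← e2]
  refine fill_closed hF hSE ?_ hSr hSM hωo (fun l h1 h2 => hAM l h1 fun h => h2 ((e3 l h1).2 h)) ?_ ?_
    hodd hη
  · rw [disjoint_left] at hSW ⊢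
    exact fun l h1 h2 => hSW h1 ((hag l (hSr h1)).1 h2)
  · rw [e1]; exact hty
  · intro x u y h1 h2 h3 h4
    rw [e1] at h4
    exact hadj x u y h1 h2 (fun h => h3 ((e3 _ h2).2 h)) h4

end agree

section box

variable {X : Env} {W Wt M Λ Ti W1 K1 Wm Go S : Finset (ℤ × ℤ)} {tv tu tb te : ℤ × ℤ → ℤ × ℤ}
  {F : Finset (ℤ × ℤ) → ℂ} {e0 w t w0 : ℤ × ℤ} {ρ r : ℤ}

/-- **Open colour.** -/
theorem F_loc_open (hF : Tog X.E Wt M F) (hag : ∀ l ∈ BR w r, (l ∈ Wt ↔ l ∈ W))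
    (hM : MskO M Λ Ti Wm tv) (hwm : ∀ l ∈ W1, l ∈ BR w r → l ∈ M) (hT : TiesO X W Ti W1 tv tu)
    (hGo : Go ⊆ X.E \ Ti) (hB : BoxO X W Ti W1 tu S w w0 ρ r) (hSL : S ⊆ Λ ∪ Ti)
    (hΛ : Go ∩ BR w r ⊆ Λ)
    (hone : OneX Go S w ρ r t) (he0 : e0 ∈ Ti) (hx : inR w ρ (tv e0))
    (ht : ∃ v, ¬ inR w (r - 1) v ∧ Co (Go ∩ BR w r) (tv e0) v)
    (hct : clO (Go ∪ (W \ W1)) Λ Ti tv e0 ⊆ S)
    (hsol : ¬ Co ((Go ∪ (W \ W1)) ∩ Λ ∪ W1) (tu e0) (tv e0)) :
    F (Go ∪ (Ti \ clO (Go ∪ (W \ W1)) Λ Ti tv e0)) = F ((Go \ S) ∪ (Ti \ S)) ∧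
      F (Go ∪ Ti) = F ((Go \ S) ∪ (Ti \ S) ∪ S) := by
  classical
  set G := Go ∪ (W \ W1) with hG
  set cl := clO G Λ Ti tv e0 with hcl
  set ωo := (Go \ S) ∪ (Ti \ S) with hωo
  have hGoE : Go ⊆ X.E := hGo.trans sdiff_subset
  have hGoTi : ∀ l ∈ Go, l ∉ Ti := fun l hl => (mem_sdiff.1 (hGo hl)).2
  have he0cl : e0 ∈ cl := mem_clO.2 ⟨he0, Co.refl _ _⟩
  have he0S : e0 ∈ S := hct he0cl
  have hωoE : ωo ⊆ X.E \ S := by
    intro l hl
    rw [hωo, mem_union, mem_sdiff, mem_sdiff] at hl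
    rw [mem_sdiff]
    rcases hl with hl | hl
    · exact ⟨hGoE hl.1, hl.2⟩
    · exact ⟨hT.sub hl.1, hl.2⟩
  set A := (ωo ∪ W) ∩ BR w r with hA
  have hW1A : W1 ∩ BR w r ⊆ A := by
    intro l hl
    rw [mem_inter] at hl
    exact mem_inter.2 ⟨mem_union_right _ (hT.w1 hl.1), hl.2⟩
  have hζA : Go ∩ (BR w r \ S) ⊆ A := by
    intro l hl
    rw [mem_inter, mem_sdiff] at hl
    exact mem_inter.2 ⟨mem_union_left _ (mem_union_left _ (mem_sdiff.2 ⟨hl.1, hl.2.2⟩)), hl.2.1⟩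
  have hSr : S ⊆ BR w r := hB.sr.trans (BR_mono' hB.lt.le)
  have hwl : ∀ u v, IsUnit4 (v - u) → u + v ∈ A → u + v ∉ Go ∩ (BR w r \ S) → Co A v w0 := by
    intro u v huv hl hlζ
    rw [hA, mem_inter] at hl
    rcases mem_union.1 hl.1 with h5 | h5
    · rw [hωo] at h5
      rcases mem_union.1 h5 with h6 | h6
      · exact absurd (mem_inter.2 ⟨(mem_sdiff.1 h6).1, mem_sdiff.2 ⟨hl.2, (mem_sdiff.1 h6).2⟩⟩) hlζ
      · have h7 := (mem_sdiff.1 h6).1
        have h8 := (hB.b2 _ h7 hl.2).mono hW1A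
        rcases end_cases (hT.unit _ h7) (hT.ends _ h7) huv rfl with ⟨-, h9⟩ | ⟨h9, h9'⟩
        · have h10 : Co A (tu (u + v)) (tv (u + v)) :=
            Relation.ReflTransGen.single ⟨hT.unit _ h7, by
              rw [hT.ends _ h7]; exact mem_inter.2 hl⟩
          rw [h9]
          exact h10.symm.trans h8
        · rw [h9']; exact h8
    · have h6 : u + v ∈ W1 ∩ BR w r := by
        exact mem_inter.2 ⟨hB.b3 (mem_inter.2 ⟨h5, hl.2⟩), hl.2⟩
      exact (hB.b1 v u (usym huv) (by rw [add_comm]; exact h6)).mono hW1A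
  have hty : ∀ s v, (∃ z, IsUnit4 (z - s) ∧ s + z ∈ S) → ¬ inR w (r - 1) v → Co A v s →
      Co A s t ∨ Co A s w0 := by
    rintro s v ⟨z, h1, h2⟩ h3 h4
    exact ty_of (ρ := ρ) (r := r) (w := w) (ζ := Go ∩ (BR w r \ S)) hwl hζA hone
      (BR_ends h1 (hB.sr h2)).1 h3 h4
  have hadj : ∀ x z y, IsUnit4 (z - x) → x + z ∈ A ∪ S → ¬ Co A x w0 → IsUnit4 (y - x) →
      x + y ∈ M := by
    intro x z y h1 h2 h3 h4
    refine hM.adj x y h4 ?_
    have htie : x + z ∈ Ti → x + z ∈ BR w r → VO Λ Ti tv x := by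
      intro h5 h6
      have h8 := (hB.b2 _ h5 h6).mono hW1A
      rcases end_cases (hT.unit _ h5) (hT.ends _ h5) h1 rfl with ⟨h9, -⟩ | ⟨h9, -⟩
      · exact absurd (by rw [h9]; exact h8) h3
      · exact Or.inl ⟨_, h5, h9.symm⟩
    rcases mem_union.1 h2 with h5 | h5
    · rw [hA, mem_inter] at h5
      rcases mem_union.1 h5.1 with h6 | h6
      · rw [hωo] at h6
        rcases mem_union.1 h6 with h7 | h7
        · exact Or.inr ⟨z, h1, hΛ (mem_inter.2 ⟨(mem_sdiff.1 h7).1, h5.2⟩)⟩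
        · exact htie (mem_sdiff.1 h7).1 h5.2
      · exfalso
        apply h3
        exact (hB.b1 x z h1 (mem_inter.2 ⟨hB.b3 (mem_inter.2 ⟨h6, h5.2⟩), h5.2⟩)).mono hW1A
    · rcases mem_union.1 (hSL h5) with h6 | h6
      · exact Or.inr ⟨z, h1, h6⟩
      · exact htie h6 (hSr h5)
  have hSM : S ⊆ M := fun l hl => hM.sub (mem_union_left _ (hSL hl))
  have hAM : A ⊆ M := by
    intro l hl
    rw [hA, mem_inter] at hl
    rcases mem_union.1 hl.1 with h5 | h5
    · rw [hωo] at h5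
      rcases mem_union.1 h5 with h6 | h6
      · exact hM.sub (mem_union_left _ (mem_union_left _
          (hΛ (mem_inter.2 ⟨(mem_sdiff.1 h6).1, hl.2⟩))))
      · exact hM.sub (mem_union_left _ (mem_union_right _ (mem_sdiff.1 h6).1))
    · exact hwm l (hB.b3 (mem_inter.2 ⟨h5, hl.2⟩)) hl.2
  have hodd : ∀ l ∈ S, (l.1 + l.2) % 2 = 1 := fun l hl => X.odd l (hB.sE hl)
  -- the vertex of the tie is joined to `t` in the box
  obtain ⟨v, hv1, hv2⟩ := ht
  have hxt : Co (Go ∩ BR w r) (tv e0) t :=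
    near_to_t hB.sr hone (Subset.refl _) hx hv1 hv2
  have hw0 : Co W1 (tu e0) w0 :=
    (hB.b2 e0 he0 (BR_mono' hB.lt.le (hB.sr he0S))).mono inter_subset_left
  -- tied
  have htied : Co (A ∪ ((Go ∩ S) ∪ (Ti ∩ S))) t w0 := by
    have m1 : Go ∩ BR w r ⊆ A ∪ ((Go ∩ S) ∪ (Ti ∩ S)) := by
      intro l hl
      rw [mem_inter] at hl
      by_cases hlS : l ∈ S
      · exact mem_union_right _ (mem_union_left _ (mem_inter.2 ⟨hl.1, hlS⟩))
      · exact mem_union_left _ (hζA (mem_inter.2 ⟨hl.1, mem_sdiff.2 ⟨hl.2, hlS⟩⟩))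
    have h1 : Co (A ∪ ((Go ∩ S) ∪ (Ti ∩ S))) (tu e0) (tv e0) :=
      Relation.ReflTransGen.single ⟨hT.unit _ he0, by
        rw [hT.ends _ he0]
        exact mem_union_right _ (mem_union_right _ (mem_inter.2 ⟨he0, he0S⟩))⟩
    have h2 := (hB.b2 e0 he0 (BR_mono' hB.lt.le (hB.sr he0S))).mono
      (hW1A.trans (subset_union_left (s₂ := (Go ∩ S) ∪ (Ti ∩ S))))
    exact ((hxt.mono m1).symm.trans h1.symm).trans h2
  -- cut
  have hcut : ¬ Co (A ∪ ((Go ∩ S) ∪ ((Ti ∩ S) \ cl))) t w0 := by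
    intro hcon
    have hGΛ : Go ∩ BR w r ⊆ G ∩ Λ := fun l hl =>
      mem_inter.2 ⟨mem_union_left _ (mem_inter.1 hl).1, hΛ hl⟩
    have key : ∀ x, Co (A ∪ ((Go ∩ S) ∪ ((Ti ∩ S) \ cl))) t x → Co (G ∩ Λ) (tv e0) x := by
      intro x hx'
      induction hx' with
      | refl => exact hxt.mono hGΛ
      | @tail a b _ hab ih =>
        have hsolid : Co W1 (tu e0) a → False := fun h => hsol
          ((h.mono subset_union_right).trans (ih.mono subset_union_left).symm)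
        have htie : a + b ∈ Ti → a + b ∉ cl → False := by
          intro h5 h6
          rcases end_cases (hT.unit _ h5) (hT.ends _ h5) hab.1 rfl with ⟨h7, -⟩ | ⟨h7, -⟩
          · apply hsolid
            rw [h7]; exact hT.conn e0 he0 _ h5
          · apply h6
            rw [hcl, mem_clO]
            refine ⟨h5, ?_⟩
            rw [← h7]; exact ih
        rcases mem_union.1 hab.2 with hl | hl
        · rw [hA, mem_inter] at hl
          rcases mem_union.1 hl.1 with h5 | h5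
          · rw [hωo] at h5
            rcases mem_union.1 h5 with h6 | h6
            · exact ih.tail ⟨hab.1, hGΛ (mem_inter.2 ⟨(mem_sdiff.1 h6).1, hl.2⟩)⟩
            · exact (htie (mem_sdiff.1 h6).1 fun h => (mem_sdiff.1 h6).2 (hct h)).elim
          · have h6 : a + b ∈ W1 := hB.b3 (mem_inter.2 ⟨h5, hl.2⟩)
            exact (hsolid (hT.conn' a b hab.1 h6 e0 he0)).elim
        · rcases mem_union.1 hl with h5 | h5
          · have h6 := mem_inter.1 h5
            exact ih.tail ⟨hab.1, hGΛ (mem_inter.2 ⟨h6.1, BR_mono' hB.lt.le (hB.sr h6.2)⟩)⟩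
          · obtain ⟨h6, h7⟩ := mem_sdiff.1 h5
            exact (htie (mem_inter.1 h6).1 h7).elim
    have h1 := key w0 hcon
    exact hsol ((hw0.mono subset_union_right).trans (h1.mono subset_union_left).symm)
  have e1 : Go ∪ Ti = ωo ∪ ((Go ∩ S) ∪ (Ti ∩ S)) := by
    rw [hωo]
    ext l
    by_cases hl : l ∈ S <;> simp only [mem_union, mem_sdiff, mem_inter, hl, not_true, not_false_iff,
      and_true, and_false, false_or, or_false]
  have e2 : Go ∪ (Ti \ cl) = ωo ∪ ((Go ∩ S) ∪ ((Ti ∩ S) \ cl)) := by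
    rw [hωo]
    ext l
    have h1 : l ∉ S → l ∉ cl := fun h h' => h (hct h')
    by_cases hl : l ∈ S
    · simp only [mem_union, mem_sdiff, mem_inter, hl, not_true, and_true, and_false, false_or]
    · simp only [mem_union, mem_sdiff, mem_inter, hl, h1 hl, not_false_iff, and_true, and_false,
        or_false]
  have s1 : (Go ∩ S) ∪ (Ti ∩ S) ⊆ S := union_subset inter_subset_right inter_subset_right
  have s2 : (Go ∩ S) ∪ ((Ti ∩ S) \ cl) ⊆ S :=
    union_subset inter_subset_right (sdiff_subset.trans inter_subset_right)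
  rw [e1, e2]
  exact ⟨(fill_open' hF hag hB.sE hB.sW hSr hSM hωoE hAM hty hadj hodd s2).2 hcut,
    (fill_open' hF hag hB.sE hB.sW hSr hSM hωoE hAM hty hadj hodd s1).1 htied⟩

/-- **Closed colour.** -/
theorem F_loc_closed (hF : Tog X.E Wt M F) (hag : ∀ l ∈ BD w r, (l ∈ Wt ↔ l ∈ W))
    (hM : MskC M Λ Ti Wm tb) (hwm : ∀ l ∈ K1, l ∈ BD w r → l ∈ M)
    (hT : TiesC X W Ti K1 tb te)
    (hGo : Go ⊆ X.E \ Ti) (hB : BoxC X W Ti K1 Λ te S w w0 ρ r) (hSL : S ⊆ Λ ∪ Ti)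
    (hone : OneXC (Go ∪ W) Λ S w ρ r t) (he0 : e0 ∈ Ti) (hx : inR w ρ (tb e0))
    (ht : ∃ v, ¬ inR w (r - 1) v ∧ Co (du (Λ ∩ BD w r) (Go ∪ W)) (tb e0) v)
    (hct : clC (Go ∪ W) Λ Ti tb e0 ⊆ S)
    (hsol : ¬ Co (du Λ (Go ∪ W) ∪ du K1 ∅) (te e0) (tb e0)) :
    F (Go ∪ clC (Go ∪ W) Λ Ti tb e0) = F ((Go \ S) ∪ S) ∧ F Go = F (Go \ S) := by
  classical
  set G := Go ∪ W with hG
  set cl := clC G Λ Ti tb e0 with hcl
  set ωo := Go \ S with hωo
  have hGoE : Go ⊆ X.E := hGo.trans sdiff_subset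
  have hGoTi : ∀ l ∈ Go, l ∉ Ti := fun l hl => (mem_sdiff.1 (hGo hl)).2
  have he0cl : e0 ∈ cl := mem_clC.2 ⟨he0, Co.refl _ _⟩
  have he0S : e0 ∈ S := hct he0cl
  have he0Q : e0 ∈ BD w r := BD_mono hB.lt.le (hB.sr he0S)
  have hωoE : ωo ⊆ X.E \ S := by
    intro l hl
    rw [hωo, mem_sdiff] at hl
    rw [mem_sdiff]
    exact ⟨hGoE hl.1, hl.2⟩
  have hTiW : ∀ l ∈ Ti, l ∉ W := fun l h1 h2 => disjoint_left.1 hT.disj h1 h2
  have hK : ∀ l ∈ K1, l ∉ X.E := fun l h1 h2 => disjoint_left.1 hT.kE h1 h2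
  have hKW : ∀ l ∈ K1, l ∉ W := fun l h1 h2 => disjoint_left.1 hT.kW h1 h2
  have hSQ : S ⊆ BD w r := hB.sr.trans (BD_mono hB.lt.le)
  set A := du (BD w r \ S) (ωo ∪ W) with hA
  have hKA : du (K1 ∩ BD w r) ∅ ⊆ A := by
    refine du_mono fun l hl _ => ?_
    rw [mem_inter] at hl
    refine ⟨mem_sdiff.2 ⟨hl.2, fun h => hK l hl.1 (hB.sE h)⟩, fun h => ?_⟩
    rcases mem_union.1 h with h | h
    · exact hK l hl.1 (hGoE (mem_sdiff.1 h).1)
    · exact hKW l hl.1 h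
  have hζA : du ((Λ ∩ BD w r) \ S) G ⊆ A := by
    refine du_mono fun l hl hl' => ?_
    rw [mem_sdiff, mem_inter] at hl
    refine ⟨mem_sdiff.2 ⟨hl.1.2, hl.2⟩, fun h => hl' ?_⟩
    rcases mem_union.1 h with h | h
    · exact mem_union_left _ (mem_sdiff.1 h).1
    · exact mem_union_right _ h
  have hwl : ∀ u v, IsUnit4 (v - u) → u + v ∈ A → u + v ∉ du ((Λ ∩ BD w r) \ S) G →
      Co A v w0 := by
    intro u v huv hl hlζ
    obtain ⟨h5, h6⟩ := of_mem_du hl
    rw [mem_sdiff] at h5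
    rw [mem_union, not_or] at h6
    have h7 : u + v - (1, 1) ∉ Go := fun h => h6.1 (mem_sdiff.2 ⟨h, h5.2⟩)
    have h8 := hB.b3 h5.1
    rw [mem_union, mem_union, mem_union] at h8
    rcases h8 with ((h8 | h8) | h8) | h8
    · exfalso
      apply hlζ
      refine mem_du_of (mem_sdiff.2 ⟨mem_inter.2 ⟨h8, h5.1⟩, h5.2⟩) ?_
      rw [hG, mem_union, not_or]
      exact ⟨h7, h6.2⟩
    · have h9 := (hB.b2 _ h8 h5.1).mono hKA
      rcases side_cases (hT.unit _ h8) (hT.ends _ h8) huv (face_add rfl) with ⟨-, h10⟩ | ⟨-, h10⟩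
      · rw [h10]
        have h11 : Co A (te (u + v - (1, 1))) (tb (u + v - (1, 1))) := by
          refine Relation.ReflTransGen.single ⟨hT.unit _ h8, ?_⟩
          rw [hT.ends _ h8]
          have : u + v - (1, 1) + (1, 1) = u + v := by
            refine Prod.ext ?_ ?_ <;> simp
          rw [this]; exact hl
        exact h11.symm.trans h9
      · rw [h10]; exact h9
    · exact (hB.b1 v u (usym huv) (by
        rw [add_comm]; exact mem_inter.2 ⟨h8, h5.1⟩)).mono hKA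
    · exact absurd h8 h6.2
  have hty : ∀ s v, (∃ z, IsUnit4 (z - s) ∧ s + z - (1, 1) ∈ S) → ¬ inR w (r - 1) v →
      Co A v s → Co A s t ∨ Co A s w0 := by
    rintro s v ⟨z, h1, h2⟩ h3 h4
    exact ty_of (ρ := ρ) (r := r) (w := w) (ζ := du ((Λ ∩ BD w r) \ S) G) hwl hζA hone
      (BD_ends h1 (hB.sr h2)).1 h3 h4
  have hadj : ∀ x z y, IsUnit4 (z - x) → x + z - (1, 1) ∈ BD w r → x + z - (1, 1) ∉ ωo ∪ W →
      ¬ Co A x w0 → IsUnit4 (y - x) → x + y - (1, 1) ∈ M := by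
    intro x z y h1 h2 h2' h3 h4
    refine hM.adj x y h4 ?_
    have h8 := hB.b3 h2
    rw [mem_union, mem_union, mem_union] at h8
    rcases h8 with ((h8 | h8) | h8) | h8
    · exact Or.inr ⟨z, h1, h8⟩
    · have h9 := (hB.b2 _ h8 h2).mono hKA
      rcases side_cases (hT.unit _ h8) (hT.ends _ h8) h1 (face_add rfl) with ⟨h10, -⟩ | ⟨h10, -⟩
      · exact absurd (by rw [h10]; exact h9) h3
      · exact Or.inl ⟨_, h8, h10.symm⟩
    · exfalso
      apply h3
      exact (hB.b1 x z h1 (mem_inter.2 ⟨h8, h2⟩)).mono hKA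
    · exact absurd (mem_union_right _ h8) h2'
  have hSM : S ⊆ M := fun l hl => hM.sub (mem_union_left _ (hSL hl))
  have hAM : ∀ l ∈ BD w r, l ∉ ωo ∪ W → l ∈ M := by
    intro l hl hl'
    have h8 := hB.b3 hl
    rw [mem_union, mem_union, mem_union] at h8
    rcases h8 with ((h8 | h8) | h8) | h8
    · exact hM.sub (mem_union_left _ (mem_union_left _ h8))
    · exact hM.sub (mem_union_left _ (mem_union_right _ h8))
    · exact hwm l h8 hl
    · exact absurd (mem_union_right _ h8) hl'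
  have hodd : ∀ l ∈ S, (l.1 + l.2) % 2 = 1 := fun l hl => X.odd l (hB.sE hl)
  obtain ⟨v, hv1, hv2⟩ := ht
  have hxt : Co (du (Λ ∩ BD w r) G) (tb e0) t := by
    refine near_to_gen (f := w) (ρ := ρ) (r := r) (ζ := du ((Λ ∩ BD w r) \ S) G)
      (η := du (Λ ∩ BD w r) G) ?_ ?_ (Subset.refl _) hone hx hv1 hv2
    · refine du_mono fun l hl hl' => ⟨(mem_sdiff.1 hl).1, hl'⟩
    · intro a b hab h1 h2
      obtain ⟨h3, h4⟩ := of_mem_du h1
      have h5 : a + b - (1, 1) ∈ S := by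
        by_contra h5
        exact h2 (mem_du_of (mem_sdiff.2 ⟨h3, h5⟩) h4)
      exact (BD_ends hab (hB.sr h5)).1
  have hw0 : Co (du K1 ∅) (te e0) w0 :=
    (hB.b2 e0 he0 he0Q).mono (du_mono fun l hl h => ⟨(mem_inter.1 hl).1, h⟩)
  have eG : ωo ∪ W ∪ (Go ∩ S) = G := by
    rw [hωo, hG]
    ext l
    simp only [mem_union, mem_sdiff, mem_inter]
    tauto
  -- tied
  have htied : Co (du (BD w r) (ωo ∪ W ∪ (Go ∩ S))) t w0 := by
    rw [eG]
    have m1 : du (Λ ∩ BD w r) G ⊆ du (BD w r) G := du_mono fun l hl h => ⟨(mem_inter.1 hl).2, h⟩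
    have m2 : du (K1 ∩ BD w r) ∅ ⊆ du (BD w r) G := by
      refine du_mono fun l hl _ => ⟨(mem_inter.1 hl).2, fun h => ?_⟩
      rcases mem_union.1 h with h | h
      · exact hK l (mem_inter.1 hl).1 (hGoE h)
      · exact hKW l (mem_inter.1 hl).1 h
    have h1 : Co (du (BD w r) G) (te e0) (tb e0) := by
      refine Relation.ReflTransGen.single ⟨hT.unit _ he0, mem_du_of ?_ ?_⟩
      · rw [face_sub (hT.ends e0 he0)]; exact he0Q
      · rw [face_sub (hT.ends e0 he0), hG, mem_union, not_or]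
        exact ⟨fun h => hGoTi _ h he0, hTiW e0 he0⟩
    exact ((hxt.mono m1).symm.trans h1.symm).trans ((hB.b2 e0 he0 he0Q).mono m2)
  -- cut
  have hcut : ¬ Co (du (BD w r) (ωo ∪ W ∪ ((Go ∩ S) ∪ cl))) t w0 := by
    intro hcon
    rw [← union_assoc, eG] at hcon
    have key : ∀ x, Co (du (BD w r) (G ∪ cl)) t x → Co (du Λ G) (tb e0) x := by
      intro x hx'
      induction hx' with
      | refl => exact hxt.mono (du_mono fun l hl h => ⟨(mem_inter.1 hl).1, h⟩)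
      | @tail a b _ hab ih =>
        have hsolid : Co (du K1 ∅) (te e0) a → False := fun h => hsol
          ((h.mono subset_union_right).trans (ih.mono subset_union_left).symm)
        obtain ⟨h3, h4⟩ := of_mem_du hab.2
        rw [mem_union, not_or] at h4
        have h8 := hB.b3 h3
        rw [mem_union, mem_union, mem_union] at h8
        rcases h8 with ((h8 | h8) | h8) | h8
        · exact ih.tail ⟨hab.1, mem_du_of h8 h4.1⟩
        · exfalso
          rcases side_cases (hT.unit _ h8) (hT.ends _ h8) hab.1 (face_add rfl) with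
            ⟨h9, -⟩ | ⟨h9, -⟩
          · apply hsolid
            rw [h9]; exact hT.conn e0 he0 _ h8
          · apply h4.2
            rw [hcl, mem_clC]
            refine ⟨h8, ?_⟩
            rw [← h9]; exact ih
        · exact (hsolid (hT.conn' a b hab.1 h8 e0 he0)).elim
        · exact absurd (mem_union_right _ h8) h4.1
    have h1 := key w0 hcon
    exact hsol ((hw0.mono subset_union_right).trans (h1.mono subset_union_left).symm)
  have e1 : Go = ωo ∪ (Go ∩ S) := by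
    rw [hωo]
    ext l
    simp only [mem_union, mem_sdiff, mem_inter]
    tauto
  have e2 : Go ∪ cl = ωo ∪ ((Go ∩ S) ∪ cl) := by
    rw [← union_assoc, ← e1]
  have s1 : Go ∩ S ⊆ S := inter_subset_right
  have s2 : (Go ∩ S) ∪ cl ⊆ S := union_subset inter_subset_right hct
  refine ⟨?_, ?_⟩
  · rw [e2]
    exact (fill_closed' hF hag hB.sE hB.sW hSQ hSM hωoE hAM hty hadj hodd s2).2 hcut
  · have := (fill_closed' hF hag hB.sE hB.sW hSQ hSM hωoE hAM hty hadj hodd s1).1 htied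
    rw [← e1] at this
    exact this

end box

/-! ### the functional and its fields -/

section fields

variable {ι : Type*} [DecidableEq ι] {X : Env} {W Wt Bb B TT Sg ω ω' θ P : Finset (ℤ × ℤ)}
  {fm : ℤ × ℤ → ι} {co : ι → Bool} {Wl Wm La Λ M : ι → Finset (ℤ × ℤ)}
  {b o : ℤ × ℤ → ℤ × ℤ} {e x w t : ℤ × ℤ} {i : ι} {m ρ r R : ℤ} {F : Finset (ℤ × ℤ) → ℂ}

/-- mean of `F` over the labels of `Bb \ B`, the ties of `P` are tied -/
noncomputable def VF (F : Finset (ℤ × ℤ) → ℂ) (Bb B TT : Finset (ℤ × ℤ)) (fm : ℤ × ℤ → ι)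
    (co : ι → Bool) (ω P : Finset (ℤ × ℤ)) : ℂ :=
  Eh (Bb \ B) (fun ω' => F (ω ∪ ω' ∪ opn TT fm co P))

/-- the masks contain the layers, the ties, the walls and the neighbourhoods of the layers (families with
ties only) -/
structure Msk (TT : Finset (ℤ × ℤ)) (fm : ℤ × ℤ → ι) (co : ι → Bool)
    (Wl Λ M : ι → Finset (ℤ × ℤ)) (b : ℤ × ℤ → ℤ × ℤ) : Prop where
  O : ∀ i, (TF TT fm i).Nonempty → co i = true → MskO (M i) (Λ i) (TF TT fm i) (Wl i) b
  C : ∀ i, (TF TT fm i).Nonempty → co i = false → MskC (M i) (Λ i) (TF TT fm i) (Wl i) b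

/-- the fixed open labels `Wt` of `F` against those of the reference, `W` -/
structure Agr (E W Wt TT : Finset (ℤ × ℤ)) (fm : ℤ × ℤ → ι) (co : ι → Bool)
    (Wl Λ M : ι → Finset (ℤ × ℤ)) (b o : ℤ × ℤ → ℤ × ℤ) : Prop where
  O : ∀ i, (TF TT fm i).Nonempty → co i = true → AgrO W Wt (M i) (Λ i) (TF TT fm i) (Wl i) b o
  C : ∀ i, (TF TT fm i).Nonempty → co i = false → AgrC E W Wt (M i) (Λ i) (TF TT fm i) (Wl i) b o

lemma Agr.self (h : Multi X W Bb B TT fm co Wl La b o) (hM : Msk TT fm co Wl Λ M b) :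
    Agr X.E W W TT fm co Wl Λ M b o where
  O i hn hi := AgrO.self (h.tO i hi) (subset_union_right.trans (hM.O i hn hi).sub)
  C i hn hi := AgrC.self (h.tC i hi) (subset_union_right.trans (hM.C i hn hi).sub)

lemma VF_le {C : ℝ} (hF : ∀ w, ‖F w‖ ≤ C) : ‖VF F Bb B TT fm co ω P‖ ≤ C := by
  classical
  unfold VF
  have h1 := Ec_half_norm (E := Bb \ B) (F := fun ω' => F (ω ∪ ω' ∪ opn TT fm co P))
    (g := fun _ => C) (fun ω' _ => hF _)
  refine h1.trans (le_of_eq ?_)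
  exact Ex_const _ _ _

/-- the open labels of the ties, one family singled out -/
lemma opn_O1 (hco : co i = true) : ω ∪ ω' ∪ opn TT fm co P =
    ω ∪ (ω' ∪ (opn TT fm co P \ TF TT fm i)) ∪ (P ∩ TF TT fm i) := by
  ext l
  simp only [mem_union, mem_sdiff, mem_inter, mem_opn]
  by_cases h1 : l ∈ TF TT fm i
  · have h2 := mem_TF.1 h1
    rw [h2.2, hco]
    tauto
  · tauto

lemma opn_O2 (hco : co i = true) (heT : e ∈ TF TT fm i) : ω ∪ ω' ∪ opn TT fm co (insert e P) =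
    ω ∪ (ω' ∪ (opn TT fm co P \ TF TT fm i)) ∪ insert e (P ∩ TF TT fm i) := by
  ext l
  simp only [mem_union, mem_sdiff, mem_inter, mem_opn, mem_insert]
  by_cases h1 : l ∈ TF TT fm i
  · have h2 := mem_TF.1 h1
    rw [h2.2, hco]
    tauto
  · have h2 : l ≠ e := fun h3 => h1 (h3 ▸ heT)
    tauto

lemma opn_C1 (hco : co i = false) : ω ∪ ω' ∪ opn TT fm co P =
    ω ∪ (ω' ∪ (opn TT fm co P \ TF TT fm i)) ∪ (TF TT fm i \ (P ∩ TF TT fm i)) := by
  ext l
  simp only [mem_union, mem_sdiff, mem_inter, mem_opn]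
  by_cases h1 : l ∈ TF TT fm i
  · have h2 := mem_TF.1 h1
    rw [h2.2, hco]
    have : ¬ (false = true) := Bool.false_ne_true
    tauto
  · tauto

lemma opn_C2 (hco : co i = false) (heT : e ∈ TF TT fm i) : ω ∪ ω' ∪ opn TT fm co (insert e P) =
    ω ∪ (ω' ∪ (opn TT fm co P \ TF TT fm i)) ∪ (TF TT fm i \ insert e (P ∩ TF TT fm i)) := by
  ext l
  simp only [mem_union, mem_sdiff, mem_inter, mem_opn, mem_insert]
  by_cases h1 : l ∈ TF TT fm i
  · have h2 := mem_TF.1 h1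
    rw [h2.2, hco]
    have : ¬ (false = true) := Bool.false_ne_true
    tauto
  · have h2 : l ≠ e := fun h3 => h1 (h3 ▸ heT)
    tauto

/-- the common part of `VTog` and `VTogX` -/
lemma vf_toggle (h : Multi X W Bb B TT fm co Wl La b o) (hF : Tog X.E Wt (M i) F)
    (hO : co i = true → MskO (M i) (Λ i) (TF TT fm i) (Wm i) b)
    (hC : co i = false → MskC (M i) (Λ i) (TF TT fm i) (Wm i) b)
    (hWO : co i = true → AgrO W Wt (M i) (Λ i) (TF TT fm i) (Wl i) b o)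
    (hWC : co i = false → AgrC X.E W Wt (M i) (Λ i) (TF TT fm i) (Wl i) b o)
    (hΛ : co i = false → Disjoint (Λ i) (TF TT fm i)) (hω : ω ⊆ B) (he : e ∈ TT)
    (hei : fm e = i) (heP : e ∉ P)
    (hcase : ∀ ω' ⊆ Bb \ B,
      (co i = true →
        (FreeO (ω ∪ (ω' ∪ (opn TT fm co P \ TF TT fm i)) ∪ (W \ Wl i)) (Wl i) (Λ i) b o e ∨
        ∃ e' ∈ P ∩ TF TT fm i, Co ((ω ∪ (ω' ∪ (opn TT fm co P \ TF TT fm i)) ∪ (W \ Wl i)) ∩
          Λ i) (b e) (b e'))) ∧
      (co i = false →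
        (FreeC (ω ∪ (ω' ∪ (opn TT fm co P \ TF TT fm i)) ∪ W) (TF TT fm i) (Wl i) (Λ i) b o e ∨
        ∃ e' ∈ P ∩ TF TT fm i, Co (du (Λ i) (ω ∪ (ω' ∪ (opn TT fm co P \ TF TT fm i)) ∪ W))
          (b e) (b e')))) :
    VF F Bb B TT fm co ω P = VF F Bb B TT fm co ω (insert e P) := by
  classical
  unfold VF
  refine Ec_congr fun ω' hω' => ?_
  set T := TF TT fm i with hT
  have heT : e ∈ T := mem_TF.2 ⟨he, hei⟩
  set θ := ω' ∪ (opn TT fm co P \ T) with hθ
  have hω'B : ω' ⊆ Bb := hω'.trans sdiff_subset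
  have hopT : opn TT fm co P \ T ⊆ TT \ T := fun l hl => by
    obtain ⟨h1, h2⟩ := mem_sdiff.1 hl
    exact mem_sdiff.2 ⟨(mem_opn.1 h1).1, h2⟩
  have hθ1 : θ ⊆ Bb ∪ (TT \ T) := union_subset_union hω'B hopT
  have hGo : ω ∪ θ ⊆ X.E \ T := by
    intro l hl
    rw [mem_sdiff]
    rcases mem_union.1 hl with h1 | h1
    · refine ⟨h.bE (h.bB (hω h1)), fun h2 => ?_⟩
      exact disjoint_left.1 h.bT (h.bB (hω h1)) (mem_TF.1 h2).1
    · rcases mem_union.1 (hθ1 h1) with h3 | h3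
      · exact ⟨h.bE h3, fun h2 => disjoint_left.1 h.bT h3 (mem_TF.1 h2).1⟩
      · exact ⟨h.tE (mem_sdiff.1 h3).1, (mem_sdiff.1 h3).2⟩
  have hPT : P ∩ T ⊆ T := inter_subset_right
  have hePT : e ∉ P ∩ T := fun h1 => heP (mem_inter.1 h1).1
  obtain ⟨hcO, hcC⟩ := hcase ω' hω'
  rcases hco : co i with _ | _
  · have key := F_tie_closed' hF (hC hco) (h.tC i hco) (hWC hco) hGo (hΛ hco) hPT heT hePT (hcC hco)
    rw [opn_C1 (P := P) hco, opn_C2 (P := P) hco heT]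
    exact key
  · have key := F_tie_open' hF (hO hco) (h.tO i hco) (hWO hco) hGo hPT heT hePT (hcO hco)
    rw [opn_O1 (P := P) hco, opn_O2 (P := P) hco heT]
    exact key

/-- **Field `VTog`**, the functional has the fixed open labels `Wt`, the reference has `W`. -/
theorem vtog_F' (h : Multi X W Bb B TT fm co Wl La b o) (hF : ∀ i, (TF TT fm i).Nonempty → Tog X.E Wt (M i) F)
    (hM : Msk TT fm co Wm La M b) (hW : Agr X.E W Wt TT fm co Wl La M b o) :
    VTog (VF F Bb B TT fm co) W B TT fm co Wl La b o := by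
  classical
  intro ω hω P hP e he heP hcase
  have hne : (TF TT fm (fm e)).Nonempty := ⟨e, mem_TF.2 ⟨he, rfl⟩⟩
  refine vf_toggle (Λ := La) h (hF (fm e) hne) (hM.O _ hne) (hM.C _ hne) (hW.O _ hne) (hW.C _ hne)
    (fun hco => ?_) hω he rfl heP fun ω' hω' => ?_
  · exact disjoint_left.2 fun l h1 h2 => disjoint_left.1 h.la_T h1 (mem_TF.1 h2).1
  set i := fm e with hi
  set T := TF TT fm i with hT
  set θ := ω' ∪ (opn TT fm co P \ T) with hθ
  have hopT : opn TT fm co P \ T ⊆ TT \ T := fun l hl => by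
    obtain ⟨h1, h2⟩ := mem_sdiff.1 hl
    exact mem_sdiff.2 ⟨(mem_opn.1 h1).1, h2⟩
  have hθ1 : θ ⊆ Bb ∪ (TT \ T) := union_subset_union (hω'.trans sdiff_subset) hopT
  have hθB : Disjoint θ B := by
    rw [hθ, disjoint_union_left]
    refine ⟨disjoint_left.2 fun l h1 h2 => (mem_sdiff.1 (hω' h1)).2 h2,
      disjoint_left.2 fun l h1 h2 => ?_⟩
    exact disjoint_left.1 h.bT (h.bB h2) (mem_sdiff.1 (hopT h1)).1
  refine ⟨fun hco => ?_, fun hco => ?_⟩
  · rcases hcase with h1 | ⟨e', h1, h2⟩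
    · left; exact h.freO hθ1 hθB he hco h1
    · right
      obtain ⟨⟨h3, h4⟩, h5⟩ := mem_cls.1 h2
      refine ⟨e', mem_inter.2 ⟨h1, mem_TF.2 ⟨h3, h4⟩⟩, ?_⟩
      rw [h.capO hθB]
      unfold gr at h5
      rw [← hi, if_pos hco] at h5
      exact h5
  · rcases hcase with h1 | ⟨e', h1, h2⟩
    · left; exact h.freC hθB hco h1
    · right
      obtain ⟨⟨h3, h4⟩, h5⟩ := mem_cls.1 h2
      refine ⟨e', mem_inter.2 ⟨h1, mem_TF.2 ⟨h3, h4⟩⟩, ?_⟩
      rw [h.duC hθB]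
      unfold gr at h5
      rw [← hi, if_neg (by rw [hco]; exact Bool.false_ne_true)] at h5
      exact h5

/-- **Field `VTog`.** -/
theorem vtog_F (h : Multi X W Bb B TT fm co Wl La b o) (hF : ∀ i, (TF TT fm i).Nonempty → Tog X.E W (M i) F)
    (hM : Msk TT fm co Wl La M b) : VTog (VF F Bb B TT fm co) W B TT fm co Wl La b o :=
  vtog_F' h hF hM (Agr.self h hM)

/-- **Field `VTogX`**, the functional has the fixed open labels `Wt`, the reference has `W`. -/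
theorem vtogX_F' (h : Multi X W Bb B TT fm co Wl La b o) (hF : ∀ i, (TF TT fm i).Nonempty → Tog X.E Wt (M i) F)
    (hM : Msk TT fm co Wm Λ M b) (hW : Agr X.E W Wt TT fm co Wl Λ M b o) :
    VTogX (VF F Bb B TT fm co) W Bb B TT fm co Wl Λ b := by
  classical
  intro i hΛ ω hω P hP e he hei heP hcase
  have hne : (TF TT fm i).Nonempty := ⟨e, mem_TF.2 ⟨he, hei⟩⟩
  refine vf_toggle (Λ := Λ) (o := o) h (hF i hne) (hM.O _ hne) (hM.C _ hne) (hW.O _ hne)
    (hW.C _ hne) hΛ hω he hei heP fun ω' hω' => ?_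
  have hcs' := hcase ω' hω'
  set T := TF TT fm i with hT
  set θ := ω' ∪ (opn TT fm co P \ T) with hθ
  refine ⟨fun hco => ?_, fun hco => ?_⟩
  · have eG : GS W TT fm co Wl i P ω ω' = ω ∪ θ ∪ (W \ Wl i) := by
      unfold GS; rw [hco, if_pos rfl]
    rcases hcs' with h1 | ⟨e', h1, h2, h3, h4⟩
    · left; left
      intro x y h5 h6 h7
      unfold Conf at h1
      rw [hco, eG] at h1
      refine h1 x y ?_ h6 ?_
      · unfold HS; rw [if_pos rfl]; exact h5
      · rw [if_pos rfl]; exact h7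
    · right
      refine ⟨e', mem_inter.2 ⟨h1, mem_TF.2 ⟨h3, h2⟩⟩, ?_⟩
      rw [hco, eG] at h4
      unfold HS at h4; rw [if_pos rfl] at h4
      exact h4
  · have hne : ¬ (false = true) := Bool.false_ne_true
    have eG : GS W TT fm co Wl i P ω ω' = ω ∪ θ ∪ W := by
      unfold GS; rw [hco, if_neg hne]
    rcases hcs' with h1 | ⟨e', h1, h2, h3, h4⟩
    · left; left
      intro x y h5 h6 h7
      unfold Conf at h1
      rw [hco, eG] at h1
      refine h1 x y ?_ h6 ?_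
      · unfold HS; rw [if_neg hne]; exact h5
      · rw [if_neg hne]; exact h7
    · right
      refine ⟨e', mem_inter.2 ⟨h1, mem_TF.2 ⟨h3, h2⟩⟩, ?_⟩
      rw [hco, eG] at h4
      unfold HS at h4; rw [if_neg hne] at h4
      exact h4

/-- **Field `VTogX`.** -/
theorem vtogX_F (h : Multi X W Bb B TT fm co Wl La b o) (hF : ∀ i, (TF TT fm i).Nonempty → Tog X.E W (M i) F)
    (hM : Msk TT fm co Wl Λ M b) : VTogX (VF F Bb B TT fm co) W Bb B TT fm co Wl Λ b :=
  vtogX_F' h hF hM (Agr.self h hM)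

/-! ### locality -/

/-- response of the open colour as a function of the labels outside -/
noncomputable def psiFO (F : Finset (ℤ × ℤ) → ℂ) (Bb B TT : Finset (ℤ × ℤ))
    (fm : ℤ × ℤ → ι) (co : ι → Bool) (i : ι) (S z : Finset (ℤ × ℤ)) : ℂ :=
  Eh (Bb \ B) (fun ω' => F (z ∪ (ω' ∪ oth TT fm co i) ∪ (TF TT fm i \ S)) -
    F (z ∪ (ω' ∪ oth TT fm co i) ∪ (TF TT fm i \ S) ∪ S))

/-- response of the closed colour as a function of the labels outside -/
noncomputable def psiFC (F : Finset (ℤ × ℤ) → ℂ) (Bb B TT : Finset (ℤ × ℤ))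
    (fm : ℤ × ℤ → ι) (co : ι → Bool) (i : ι) (S z : Finset (ℤ × ℤ)) : ℂ :=
  Eh (Bb \ B) (fun ω' => F (z ∪ (ω' ∪ oth TT fm co i) ∪ S) -
    F (z ∪ (ω' ∪ oth TT fm co i)))

lemma DV_O (h : Multi X W Bb B TT fm co Wl La b o) (hi : co (fm e) = true) :
    DV (VF F Bb B TT fm co) TT fm co La b e ω = Eh (Bb \ B) (fun ω' =>
      F (ω ∪ (ω' ∪ oth TT fm co (fm e)) ∪ (TF TT fm (fm e) \
        clO (ω ∪ (ω' ∪ oth TT fm co (fm e)) ∪ (W \ Wl (fm e))) (La (fm e)) (TF TT fm (fm e)) b e)) -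
      F (ω ∪ (ω' ∪ oth TT fm co (fm e)) ∪ TF TT fm (fm e))) := by
  unfold DV VF
  rw [← Ec_sub]
  refine Ec_congr fun ω' hω' => ?_
  have hd : Disjoint (ω' ∪ oth TT fm co (fm e)) B := by
    rw [disjoint_union_left]
    refine ⟨disjoint_left.2 fun l h1 h2 => (mem_sdiff.1 (hω' h1)).2 h2,
      disjoint_left.2 fun l h1 h2 => ?_⟩
    exact disjoint_left.1 h.bT (h.bB h2) (mem_oth.1 h1).1.1
  rw [h.clO_eq hd hi]
  congr 2
  · ext l
    simp only [mem_union, mem_opn, mem_sdiff, mem_TF, mem_oth]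
    have h1 : l ∈ cls TT fm co La b ω e → fm l = fm e := fun h2 => (mem_cls.1 h2).1.2
    by_cases h2 : fm l = fm e
    · rw [h2, hi]; tauto
    · tauto
  · ext l
    simp only [mem_union, mem_opn, mem_TF, mem_oth]
    by_cases h2 : fm l = fm e
    · rw [h2, hi]; tauto
    · tauto

lemma DV_C (h : Multi X W Bb B TT fm co Wl La b o) (hi : co (fm e) = false) :
    DV (VF F Bb B TT fm co) TT fm co La b e ω = Eh (Bb \ B) (fun ω' =>
      F (ω ∪ (ω' ∪ oth TT fm co (fm e)) ∪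
        clC (ω ∪ (ω' ∪ oth TT fm co (fm e)) ∪ W) (La (fm e)) (TF TT fm (fm e)) b e) -
      F (ω ∪ (ω' ∪ oth TT fm co (fm e)))) := by
  unfold DV VF
  rw [← Ec_sub]
  refine Ec_congr fun ω' hω' => ?_
  have hd : Disjoint (ω' ∪ oth TT fm co (fm e)) B := by
    rw [disjoint_union_left]
    refine ⟨disjoint_left.2 fun l h1 h2 => (mem_sdiff.1 (hω' h1)).2 h2,
      disjoint_left.2 fun l h1 h2 => ?_⟩
    exact disjoint_left.1 h.bT (h.bB h2) (mem_oth.1 h1).1.1
  rw [h.clC_eq hd hi]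
  have hne : ¬ (false = true) := Bool.false_ne_true
  congr 2
  · ext l
    simp only [mem_union, mem_opn, mem_sdiff, mem_oth]
    have h1 : l ∈ cls TT fm co La b ω e → l ∈ TT ∧ fm l = fm e := fun h2 => (mem_cls.1 h2).1
    by_cases h2 : fm l = fm e
    · rw [h2, hi]; tauto
    · tauto
  · ext l
    simp only [mem_union, mem_opn, mem_oth]
    by_cases h2 : fm l = fm e
    · rw [h2, hi]; tauto
    · tauto

/-- open ties -/
theorem locFO (h : Multi X W Bb B TT fm co Wl La b o) (hF : Tog X.E Wt (M (fm e)) F)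
    (hag : ∀ l ∈ BR w R, (l ∈ Wt ↔ l ∈ W))
    (hM : MskO (M (fm e)) (La (fm e)) (TF TT fm (fm e)) (Wm (fm e)) b)
    (hwm : ∀ l ∈ Wl (fm e), l ∈ BR w R → l ∈ M (fm e))
    (hi : co (fm e) = true)
    (hG : WallO X W Bb TT (TF TT fm (fm e)) (Wl (fm e)) (La (fm e)) b o e w m R)
    (hmρ : m < ρ) (hρr : ρ < r) (hrR : r ≤ R) (he : e ∈ TT) (hω : ω ⊆ B)
    (hx : Gx w ρ r (gr co La (fm e) ω ∩ (BR w r \ BR w ρ)) t)
    (ht : Co (gr co La (fm e) ω) (b e) t)
    (hcn : ∀ v, WV (TF TT fm (fm e)) b v → Co (gr co La (fm e) ω) (b e) v → inR w m v)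
    (hnt : ¬ Tch (gr co La (fm e) ω) (Wl (fm e)) (b e)) :
    DV (VF F Bb B TT fm co) TT fm co La b e ω =
      psiFO F Bb B TT fm co (fm e) ((La (fm e) ∪ TF TT fm (fm e)) ∩ BR w ρ) (ω \ BR w ρ) := by
  classical
  have egr : gr co La (fm e) ω = ω ∩ La (fm e) := by
    unfold gr; rw [if_pos hi]
  rw [DV_O h hi]
  unfold psiFO
  refine Ec_congr fun ω' hω' => ?_
  set i := fm e with hidef
  set T := TF TT fm i with hT
  set η := gr co La i ω with hη
  set Go := ω ∪ (ω' ∪ oth TT fm co i) with hGo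
  set S := (La i ∪ T) ∩ BR w ρ with hS
  have heT : e ∈ T := mem_TF.2 ⟨he, rfl⟩
  have hTO := h.tO i hi
  have hρR : ρ < R := by omega
  have hBR : ∀ {l : ℤ × ℤ}, l ∈ Go → l ∈ BR w R → l ∈ ω ∧ l ∈ La i := by
    intro l h1 h2
    have h3 := hG.inb l (h.go_in hω hω' h1) h2
    exact ⟨h.go_la hω' h1 h3, h3⟩
  have hinm : inR w m (b e) := hcn _ ⟨e, heT, rfl⟩ (Co.refl _ _)
  have hxρ : inR w ρ (b e) := by
    rw [inR_iff] at hinm ⊢; omega
  have eζ : Go ∩ (BR w r \ S) = η ∩ (BR w r \ BR w ρ) := by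
    ext l
    have m1 : l ∈ Go ∩ (BR w r \ S) ↔ l ∈ Go ∧ l ∈ BR w r ∧ l ∉ S := by
      rw [mem_inter, mem_sdiff]
    have m2 : l ∈ η ∩ (BR w r \ BR w ρ) ↔ l ∈ η ∧ l ∈ BR w r ∧ l ∉ BR w ρ := by
      rw [mem_inter, mem_sdiff]
    rw [m1, m2]
    constructor
    · rintro ⟨h1, h2, h3⟩
      obtain ⟨h4, h5⟩ := hBR h1 (BR_mono' hrR h2)
      refine ⟨by rw [egr]; exact mem_inter.2 ⟨h4, h5⟩, h2, fun h6 => h3 ?_⟩
      exact mem_inter.2 ⟨mem_union_left _ h5, h6⟩
    · rintro ⟨h1, h2, h3⟩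
      rw [egr] at h1
      exact ⟨mem_union_left _ (mem_inter.1 h1).1, h2, fun h4 => h3 (mem_inter.1 h4).2⟩
  have hB : BoxO X W T (Wl i) o S w (o e) ρ r := by
    refine ⟨hG.conn ρ hmρ hρR, fun l hl => ?_, ?_, inter_subset_right, hρr, hG.b1 r (by omega) hrR,
      hG.b2 r (by omega) hrR, fun l hl => ?_, fun hl => hG.root (BR_mono' hrR hl)⟩
    · rcases mem_union.1 (mem_inter.1 hl).1 with h1 | h1
      · exact h.bE (h.bB (h.la i h1))
      · exact hTO.sub h1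
    · rw [disjoint_left]
      intro l hl h2
      rcases mem_union.1 (mem_inter.1 hl).1 with h1 | h1
      · exact disjoint_left.1 h.la_W h1 h2
      · exact disjoint_left.1 hTO.disj h1 h2
    · rw [mem_inter] at hl
      exact hG.wsub (mem_inter.2 ⟨hl.1, BR_mono' hrR hl.2⟩)
  have hone : OneX Go S w ρ r t := by
    intro u v h1 h2 h3
    rw [eζ] at h3 ⊢
    exact (hx.2.2 u v (near_iff.2 h1) (far_iff.2 h2) h3).symm
  have hd : Disjoint (ω' ∪ oth TT fm co i) B := by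
    rw [disjoint_union_left]
    refine ⟨disjoint_left.2 fun l h1 h2 => (mem_sdiff.1 (hω' h1)).2 h2,
      disjoint_left.2 fun l h1 h2 => ?_⟩
    exact disjoint_left.1 h.bT (h.bB h2) (mem_oth.1 h1).1.1
  have hcap : (Go ∪ (W \ Wl i)) ∩ La i = η := by
    rw [egr]; exact h.capO hd
  have key := F_loc_open (Λ := La i) (e0 := e) (t := t) hF (fun l hl => hag l (BR_mono' hrR hl))
    hM (fun l h1 h2 => hwm l h1 (BR_mono' hrR h2)) hTO
    (h.go_sub hω hω') hB inter_subset_left (fun l hl => ?_) hone heT hxρ ?_ ?_ ?_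
  · rw [key.1, key.2]
    have e1 : Go \ S = ω \ BR w ρ ∪ (ω' ∪ oth TT fm co i) := by
      ext l
      have m1 : l ∈ Go \ S ↔ l ∈ Go ∧ l ∉ S := mem_sdiff
      have m2 : l ∈ ω \ BR w ρ ∪ (ω' ∪ oth TT fm co i) ↔
          (l ∈ ω ∧ l ∉ BR w ρ) ∨ l ∈ ω' ∪ oth TT fm co i := by rw [mem_union, mem_sdiff]
      rw [m1, m2]
      constructor
      · rintro ⟨h1, h2⟩
        rcases mem_union.1 h1 with h3 | h3
        · refine Or.inl ⟨h3, fun h4 => h2 (mem_inter.2 ⟨mem_union_left _ ?_, h4⟩)⟩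
          exact (hBR h1 (BR_mono' hρR.le h4)).2
        · exact Or.inr h3
      · rintro (⟨h1, h2⟩ | h1)
        · exact ⟨mem_union_left _ h1, fun h3 => h2 (mem_inter.1 h3).2⟩
        · refine ⟨mem_union_right _ h1, fun h2 => ?_⟩
          have h3 := hBR (mem_union_right _ h1) (BR_mono' hρR.le (mem_inter.1 h2).2)
          exact disjoint_left.1 hd h1 (hω h3.1)
    rw [e1]
  · obtain ⟨h1, h2⟩ := mem_inter.1 hl
    exact (hBR h1 (BR_mono' hrR h2)).2
  · have hxr : |(b e).1 - w.1| < r ∧ |(b e).2 - w.2| < r := by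
      rw [abs_lt, abs_lt]
      rw [inR_iff] at hinm
      omega
    obtain ⟨v', h1, h2⟩ := open_exit ht hxr hx.1
    refine ⟨v', far_iff.1 h1, h2.mono fun l hl => ?_⟩
    obtain ⟨h3, h4⟩ := mem_inter.1 hl
    rw [egr] at h3
    exact mem_inter.2 ⟨mem_union_left _ (mem_inter.1 h3).1, h4⟩
  · intro e' he'
    rw [mem_clO, hcap] at he'
    have h1 := hcn _ ⟨e', he'.1, rfl⟩ he'.2
    refine mem_inter.2 ⟨mem_union_right _ he'.1, ?_⟩
    rw [← hTO.ends e' he'.1]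
    exact tie_box hmρ (hTO.unit e' he'.1) h1
  · rw [hcap]
    intro h1
    apply hnt
    refine tch_of_co (fun z hz hl => ?_) hG.ne h1
    rw [egr] at hl
    exact hG.oe z hz (mem_inter.1 hl).2

/-- closed ties -/
theorem locFC (h : Multi X W Bb B TT fm co Wl La b o) (hF : Tog X.E Wt (M (fm e)) F)
    (hag : ∀ l ∈ BD w R, (l ∈ Wt ↔ l ∈ W))
    (hM : MskC (M (fm e)) (La (fm e)) (TF TT fm (fm e)) (Wm (fm e)) b)
    (hwm : ∀ l ∈ Wl (fm e), l ∈ BD w R → l ∈ M (fm e))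
    (hi : co (fm e) = false)
    (hG : WallC X W Bb TT (TF TT fm (fm e)) (Wl (fm e)) (La (fm e)) b o e w m R)
    (hmρ : m < ρ) (hρr : ρ < r) (hrR : r ≤ R) (he : e ∈ TT) (hω : ω ⊆ B)
    (hx : Gx w ρ r (gr co La (fm e) ω ∩ (BR w r \ BR w ρ)) t)
    (ht : Co (gr co La (fm e) ω) (b e) t)
    (hcn : ∀ v, WV (TF TT fm (fm e)) b v → Co (gr co La (fm e) ω) (b e) v → inR w m v)
    (hnt : ¬ Tch (gr co La (fm e) ω) (du (Wl (fm e)) ∅) (b e)) :
    DV (VF F Bb B TT fm co) TT fm co La b e ω =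
      psiFC F Bb B TT fm co (fm e) ((La (fm e) ∪ TF TT fm (fm e)) ∩ BD w ρ) (ω \ BD w ρ) := by
  classical
  have egr : gr co La (fm e) ω = du (La (fm e)) ω := by
    unfold gr; rw [if_neg (by rw [hi]; exact Bool.false_ne_true)]
  rw [DV_C h hi]
  unfold psiFC
  refine Ec_congr fun ω' hω' => ?_
  set i := fm e with hidef
  set T := TF TT fm i with hT
  set η := gr co La i ω with hη
  set Go := ω ∪ (ω' ∪ oth TT fm co i) with hGo
  set S := (La i ∪ T) ∩ BD w ρ with hS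
  have heT : e ∈ T := mem_TF.2 ⟨he, rfl⟩
  have hTC := h.tC i hi
  have hρR : ρ < R := by omega
  have hBR : ∀ {l : ℤ × ℤ}, l ∈ Go → l ∈ BD w R → l ∈ ω ∧ l ∈ La i := by
    intro l h1 h2
    have h3 := hG.inb l (h.go_in hω hω' h1) h2
    exact ⟨h.go_la hω' h1 h3, h3⟩
  have hinm : inR w m (b e) := hcn _ ⟨e, heT, rfl⟩ (Co.refl _ _)
  have hxρ : inR w ρ (b e) := by
    rw [inR_iff] at hinm ⊢; omega
  have hd : Disjoint (ω' ∪ oth TT fm co i) B := by
    rw [disjoint_union_left]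
    refine ⟨disjoint_left.2 fun l h1 h2 => (mem_sdiff.1 (hω' h1)).2 h2,
      disjoint_left.2 fun l h1 h2 => ?_⟩
    exact disjoint_left.1 h.bT (h.bB h2) (mem_oth.1 h1).1.1
  have hcap : du (La i) (Go ∪ W) = η := by
    rw [egr]; exact h.duC hd
  have eζ : du ((La i ∩ BD w r) \ S) (Go ∪ W) = η ∩ (BR w r \ BR w ρ) := by
    ext l
    rw [mem_inter, ← hcap, mem_du', mem_du', mem_sdiff, mem_inter, mem_sdiff, hS, mem_inter,
      mem_union, mem_BD', mem_BD', sub_add_one]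
    tauto
  have hB : BoxC X W T (Wl i) (La i) o S w (o e) ρ r := by
    refine ⟨hG.conn ρ hmρ hρR, fun l hl => ?_, ?_, inter_subset_right, hρr, hG.b1 r (by omega) hrR,
      hG.b2 r (by omega) hrR, (BD_mono hrR).trans hG.cov, fun hl => hG.root (BD_mono hrR hl)⟩
    · rcases mem_union.1 (mem_inter.1 hl).1 with h1 | h1
      · exact h.bE (h.bB (h.la i h1))
      · exact hTC.sub h1
    · rw [disjoint_left]
      intro l hl h2
      rcases mem_union.1 (mem_inter.1 hl).1 with h1 | h1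
      · exact disjoint_left.1 h.la_W h1 h2
      · exact disjoint_left.1 hTC.disj h1 h2
  have hone : OneXC (Go ∪ W) (La i) S w ρ r t := by
    intro u v h1 h2 h3
    rw [eζ] at h3 ⊢
    exact (hx.2.2 u v (near_iff.2 h1) (far_iff.2 h2) h3).symm
  have key := F_loc_closed (Λ := La i) (e0 := e) (t := t) hF (fun l hl => hag l (BD_mono hrR hl))
    hM (fun l h1 h2 => hwm l h1 (BD_mono hrR h2)) hTC
    (h.go_sub hω hω') hB inter_subset_left hone heT hxρ ?_ ?_ ?_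
  · rw [key.1, key.2]
    have e1 : Go \ S = ω \ BD w ρ ∪ (ω' ∪ oth TT fm co i) := by
      ext l
      have m1 : l ∈ Go \ S ↔ l ∈ Go ∧ l ∉ S := mem_sdiff
      have m2 : l ∈ ω \ BD w ρ ∪ (ω' ∪ oth TT fm co i) ↔
          (l ∈ ω ∧ l ∉ BD w ρ) ∨ l ∈ ω' ∪ oth TT fm co i := by rw [mem_union, mem_sdiff]
      rw [m1, m2]
      constructor
      · rintro ⟨h1, h2⟩
        rcases mem_union.1 h1 with h3 | h3
        · refine Or.inl ⟨h3, fun h4 => h2 (mem_inter.2 ⟨mem_union_left _ ?_, h4⟩)⟩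
          exact (hBR h1 (BD_mono hρR.le h4)).2
        · exact Or.inr h3
      · rintro (⟨h1, h2⟩ | h1)
        · exact ⟨mem_union_left _ h1, fun h3 => h2 (mem_inter.1 h3).2⟩
        · refine ⟨mem_union_right _ h1, fun h2 => ?_⟩
          have h3 := hBR (mem_union_right _ h1) (BD_mono hρR.le (mem_inter.1 h2).2)
          exact disjoint_left.1 hd h1 (hω h3.1)
    rw [e1]
  · have hxr : |(b e).1 - w.1| < r ∧ |(b e).2 - w.2| < r := by
      rw [abs_lt, abs_lt]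
      rw [inR_iff] at hinm
      omega
    obtain ⟨v', h1, h2⟩ := open_exit ht hxr hx.1
    refine ⟨v', far_iff.1 h1, h2.mono fun l hl => ?_⟩
    obtain ⟨h3, h4⟩ := mem_inter.1 hl
    rw [← hcap, mem_du'] at h3
    rw [mem_du', mem_inter, mem_BD', sub_add_one]
    exact ⟨⟨h3.1, h4⟩, h3.2⟩
  · intro e' he'
    rw [mem_clC, hcap] at he'
    have h1 := hcn _ ⟨e', he'.1, rfl⟩ he'.2
    refine mem_inter.2 ⟨mem_union_right _ he'.1, ?_⟩
    rw [mem_BD', ← hTC.ends e' he'.1]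
    exact tie_box hmρ (hTC.unit e' he'.1) h1
  · rw [hcap]
    intro h1
    apply hnt
    refine tch_of_co (fun z hz hl => ?_) hG.ne h1
    rw [egr, mem_du'] at hl
    exact hG.oe z hz hl.1

/-- **Field `VLoc`**, the functional has the fixed open labels `Wt`, the reference has `W`; `Sg` contains the
labels of the difference and those of the walls outside of the masks. -/
theorem vloc_F' (h : Multi X W Bb B TT fm co Wl La b o) (hF : ∀ i, (TF TT fm i).Nonempty → Tog X.E Wt (M i) F)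
    (hM : Msk TT fm co Wm La M b) (hW : Agr X.E W Wt TT fm co Wl La M b o)
    (hSg : ∀ l, l ∉ Sg → (l ∈ Wt ↔ l ∈ W))
    (hwm : ∀ i, (TF TT fm i).Nonempty → ∀ l ∈ Wl i, l ∉ Sg → l ∈ M i) :
    VLoc (VF F Bb B TT fm co) X W Bb B TT Sg fm co Wl La b o := by
  classical
  intro e he w m ρ r R hG hmρ hρr hrR hSgw
  have hag : ∀ l ∈ bx (co (fm e)) w R, (l ∈ Wt ↔ l ∈ W) := fun l hl => hSg l fun h1 => hSgw l h1 hl
  have hTog := vtog_F' h hF hM hW
  set i := fm e with hi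
  set T := TF TT fm i with hT
  have heT : e ∈ T := mem_TF.2 ⟨he, rfl⟩
  set Wg := if co i = true then Wl i else du (Wl i) ∅ with hWg
  set psi := if co i = true then
      psiFO F Bb B TT fm co i ((La i ∪ T) ∩ BR w ρ) else
      psiFC F Bb B TT fm co i ((La i ∪ T) ∩ BD w ρ) with hpsi
  refine ⟨fun z => if ∃ t, Gx w ρ r (gr co La i z ∩ (BR w r \ BR w ρ)) t ∧
    ¬ Tch (gr co La i z \ BR w ρ) Wg t then psi z else 0, ?_⟩
  intro ω hω t hx ht hcn
  set z := ω \ bx (co i) w ρ with hz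
  have e1 : gr co La i z \ BR w ρ = gr co La i ω \ BR w ρ := gr_out
  have e2 : gr co La i z ∩ (BR w r \ BR w ρ) = gr co La i ω ∩ (BR w r \ BR w ρ) := by
    have h1 : ∀ η : Finset (ℤ × ℤ), η ∩ (BR w r \ BR w ρ) = (η \ BR w ρ) ∩ BR w r := by
      intro η; ext l; simp only [mem_inter, mem_sdiff]; tauto
    rw [h1, h1, e1]
  have hinm : inR w m (b e) := hcn _ ⟨e, heT, rfl⟩ (Co.refl _ _)
  have hxρ : inR w ρ (b e) := by
    rw [inR_iff] at hinm ⊢; omega
  have hsep : ∀ y z, IsUnit4 (z - y) → y + z ∈ Wg → Co (gr co La i ω) (b e) y →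
      ¬ inR w R y := by
    intro y z h1 h2 h3
    unfold WallG at hG
    rw [← hi] at hG
    rw [hWg] at h2
    unfold gr at h3
    rcases hco : co i with _ | _
    · rw [hco] at hG h2 h3
      rw [if_neg Bool.false_ne_true] at hG h2 h3
      exact hG.sep y z h1 (of_mem_du h2).1 (VC_of_co heT h3)
    · rw [hco] at hG h2 h3
      rw [if_pos rfl] at hG h2 h3
      exact hG.sep y z h1 h2 (VO_of_co heT h3)
  have hiff := tch_iff (η := gr co La i ω) (Wg := Wg) hxρ hρr hrR hx ht hsep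
  by_cases hT' : Tch (gr co La i ω) Wg (b e)
  · have h0 : DV (VF F Bb B TT fm co) TT fm co La b e ω = 0 := by
      refine DV_free h hTog hω he ?_
      unfold fre
      rw [← hi]
      rw [hWg] at hT'
      unfold gr at hT'
      rcases hco : co i with _ | _
      · rw [hco] at hT'
        rw [if_neg Bool.false_ne_true, if_neg Bool.false_ne_true] at hT'
        rw [if_neg Bool.false_ne_true]
        right
        rw [h.duC']
        refine co_of_tch (fun a b' h1 h2 => ?_) hT'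
        exact (h.tC i hco).conn' a b' h1 (of_mem_du h2).1 e heT
      · rw [hco] at hT'
        rw [if_pos rfl, if_pos rfl] at hT'
        rw [if_pos rfl]
        right
        rw [h.capO']
        exact co_of_tch (fun a b' h1 h2 => (h.tO i hco).conn' a b' h1 h2 e heT) hT'
    rw [h0]
    simp only
    rw [if_neg]
    rintro ⟨t', h1, h2⟩
    rw [e2] at h1
    rw [e1] at h2
    apply h2
    obtain ⟨y, z', h3, h4, h5⟩ := hiff.1 hT'
    refine ⟨y, z', h3, h4, ?_⟩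
    have h6 := (Gx.unique h1 hx).mono (show gr co La i ω ∩ (BR w r \ BR w ρ) ⊆
      gr co La i ω \ BR w ρ from fun l hl => by
        obtain ⟨g1, g2⟩ := mem_inter.1 hl
        exact mem_sdiff.2 ⟨g1, (mem_sdiff.1 g2).2⟩)
    exact h6.trans h5
  · simp only
    rw [if_pos ⟨t, by rw [e2]; exact hx, by rw [e1]; exact fun h1 => hT' (hiff.2 h1)⟩]
    rw [hpsi]
    unfold WallG at hG
    rw [← hi] at hG
    rcases hco : co i with _ | _
    · rw [hco] at hG
      rw [if_neg Bool.false_ne_true] at hG ⊢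
      rw [hWg, hco, if_neg Bool.false_ne_true] at hT'
      have hag' : ∀ l ∈ BD w R, (l ∈ Wt ↔ l ∈ W) := by
        intro l hl
        refine hag l ?_
        rw [hco]
        unfold bx
        rw [if_neg Bool.false_ne_true]
        exact hl
      have hwm' : ∀ l ∈ Wl i, l ∈ BD w R → l ∈ M i := by
        intro l h1 h2
        refine hwm i ⟨e, heT⟩ l h1 fun h3 => hSgw l h3 ?_
        rw [hco]
        unfold bx
        rw [if_neg Bool.false_ne_true]
        exact h2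
      have := locFC h (hF i ⟨e, heT⟩) hag' (hM.C i ⟨e, heT⟩ hco) hwm' hco hG hmρ hρr hrR he hω hx ht
        hcn hT'
      rw [this, hz]
      unfold bx
      rw [hco, if_neg Bool.false_ne_true]
    · rw [hco] at hG
      rw [if_pos rfl] at hG ⊢
      rw [hWg, hco, if_pos rfl] at hT'
      have hag' : ∀ l ∈ BR w R, (l ∈ Wt ↔ l ∈ W) := by
        intro l hl
        refine hag l ?_
        rw [hco]
        unfold bx
        rw [if_pos rfl]
        exact hl
      have hwm' : ∀ l ∈ Wl i, l ∈ BR w R → l ∈ M i := by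
        intro l h1 h2
        refine hwm i ⟨e, heT⟩ l h1 fun h3 => hSgw l h3 ?_
        rw [hco]
        unfold bx
        rw [if_pos rfl]
        exact h2
      have := locFO h (hF i ⟨e, heT⟩) hag' (hM.O i ⟨e, heT⟩ hco) hwm' hco hG hmρ hρr hrR he hω hx ht
        hcn hT'
      rw [this, hz]
      unfold bx
      rw [hco, if_pos rfl]

/-- **Field `VLoc`.** -/
theorem vloc_F (h : Multi X W Bb B TT fm co Wl La b o) (hF : ∀ i, (TF TT fm i).Nonempty → Tog X.E W (M i) F)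
    (hM : Msk TT fm co Wl La M b) :
    VLoc (VF F Bb B TT fm co) X W Bb B TT Sg fm co Wl La b o :=
  vloc_F' h hF hM (Agr.self h hM) (fun _ _ => Iff.rfl) fun i hn l hl _ => by
    rcases hco : co i with _ | _
    · exact (hM.C i hn hco).sub (mem_union_right _ hl)
    · exact (hM.O i hn hco).sub (mem_union_right _ hl)

end fields

end Pool.Agent.H42.W
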