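import Mathlib
import Pool.Agent.H39.Q1.FlatW
import Pool.Agent.H33.Q1.Tile
import Pool.Agent.H74.R45.Def
import Pool.Agent.Q1.M6c.PlaneDob

set_option autoImplicit false
open Finset

/-! # The single wall reference of the crossed wall (chart II): definitions

Tile frame, `lt (x, y)` the label of the tile `(x, y)`. `D : RB` : a rectangle of tiles `x0 ≤ x < w - 1`,
`0 ≤ y < H` (the band, random), the column `x = w - 1` of the line, the wall `w ≤ x < w + L`, `0 ≤ y < H` of the
colour `c`. `D.Tp` : the ties = kept tiles (`x + y` odd) of the caps of the column `w - 1`; the other tiles of this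
column, the row `-1` and the row `H` have the colour `!c`. `D.Ly` : the layer. One family (`Unit`), one wall.
`D.b`, `D.o` : inner and outer end of a tie, `D.XR` : the environment (isolated root), `D.co`, `D.Wl`, `D.La`,
`D.W`, `D.Bb`, `D.TT` : as in `Multi`. -/

namespace Pool.Agent.H42.W

open Pool.Agent.H75.Perc Pool.Agent.H75.TwoArm Pool.Agent.Q1 Pool.Agent.H33.Q1
open Pool.Agent.H75.Four Pool.Agent.H69.Q1
open Pool.Agent.H74.R45 (exists_lt)

/-- **The box.** -/
structure RB where
  /-- first column of the wall -/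
  w : ℤ
  /-- first column of the band -/
  x0 : ℤ
  /-- number of rows -/
  H : ℤ
  /-- thickness of the wall -/
  L : ℤ
  /-- colour of the wall (`true` : open) -/
  c : Bool
  hx : x0 + 8 ≤ w
  hH : 8 ≤ H
  hL : 2 ≤ L

namespace RB

variable (D : RB)

/-- tiles near the box -/
def Z (x y : ℤ) : Prop := D.x0 - 1 ≤ x ∧ x < D.w + D.L ∧ -1 ≤ y ∧ y ≤ D.H

/-- the band -/
def Bd (x y : ℤ) : Prop := D.x0 ≤ x ∧ x < D.w - 1 ∧ 0 ≤ y ∧ y < D.H

/-- the layer -/
def Ly (x y : ℤ) : Prop := D.x0 + 2 ≤ x ∧ x < D.w - 1 ∧ 0 ≤ y ∧ y < D.H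

/-- the ties -/
def Tp (x y : ℤ) : Prop := x = D.w - 1 ∧ 0 ≤ y ∧ y < D.H ∧ (x + y) % 2 = 1 ∧
  (if D.c = true then y + 1 < D.H else 0 < y)

/-- the wall -/
def Wp (x y : ℤ) : Prop := D.w ≤ x ∧ x < D.w + D.L ∧ 0 ≤ y ∧ y < D.H

/-- the fixed open tiles -/
def Op (x y : ℤ) : Prop := if D.c = true then D.Wp x y else
  D.x0 - 1 ≤ x ∧ x < D.w ∧ (y = -1 ∨ y = D.H ∨ (x = D.w - 1 ∧ 0 ≤ y ∧ y < D.H ∧ ¬ D.Tp x y))

open Classical in
/-- labels of the tiles near the box with the property `p` -/
noncomputable def S (p : ℤ → ℤ → Prop) : Finset (ℤ × ℤ) :=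
  ((Icc (D.x0 - 1) (D.w + D.L) ×ˢ Icc (-1) D.H).filter fun t => D.Z t.1 t.2 ∧ p t.1 t.2).image lt

variable {D} in
lemma mem_S {p : ℤ → ℤ → Prop} {x y : ℤ} : lt (x, y) ∈ D.S p ↔ D.Z x y ∧ p x y := by
  classical
  unfold S
  simp only [mem_image, mem_filter, mem_product, mem_Icc, Prod.exists]
  constructor
  · rintro ⟨x', y', ⟨_, h5⟩, h6⟩
    have := lt_inj h6
    simp only [Prod.mk.injEq] at this
    obtain ⟨rfl, rfl⟩ := this
    exact h5
  · intro h
    have h1 := h.1
    unfold Z at h1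
    exact ⟨x, y, ⟨⟨⟨h1.1, by omega⟩, h1.2.2.1, h1.2.2.2⟩, h⟩, rfl⟩

variable {D} in
lemma odd_S {p : ℤ → ℤ → Prop} {e : ℤ × ℤ} (he : e ∈ D.S p) : (e.1 + e.2) % 2 = 1 := by
  classical
  unfold S at he
  simp only [mem_image] at he
  obtain ⟨t, -, rfl⟩ := he
  exact lt_odd t

/-- labels of the band -/
noncomputable def Bb : Finset (ℤ × ℤ) := D.S D.Bd

/-- labels of the layer, one family -/
noncomputable def La (_ : Unit) : Finset (ℤ × ℤ) := D.S D.Ly

/-- the ties -/
noncomputable def TT : Finset (ℤ × ℤ) := D.S D.Tp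

/-- the wall, one family -/
noncomputable def Wl (_ : Unit) : Finset (ℤ × ℤ) := D.S D.Wp

/-- the fixed open labels -/
noncomputable def W : Finset (ℤ × ℤ) := D.S D.Op

/-- the random labels -/
noncomputable def E : Finset (ℤ × ℤ) := D.Bb ∪ D.TT

/-- the colour, one family -/
def co (_ : Unit) : Bool := D.c

/-- the family of a tie -/
def fm (_ : ℤ × ℤ) : Unit := ()

/-- inner end of a tie -/
def b (e : ℤ × ℤ) : ℤ × ℤ := if D.c = true then ((e.1 - 1) / 2, e.2 / 2) else ((e.1 + 1) / 2, e.2 / 2)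

/-- outer end of a tie -/
def o (e : ℤ × ℤ) : ℤ × ℤ :=
  if D.c = true then ((e.1 + 1) / 2, e.2 / 2) else ((e.1 + 1) / 2, e.2 / 2 + 1)

/-- height of the root -/
def Nr : ℤ := |D.w| + D.H + D.L + 10

variable {D} {x y : ℤ} {e : ℤ × ℤ}

lemma mem_Bb : lt (x, y) ∈ D.Bb ↔ D.Bd x y := by
  unfold Bb
  rw [mem_S]
  refine ⟨fun h => h.2, fun h => ⟨?_, h⟩⟩
  have := D.hL
  unfold Bd at h
  unfold Z
  omega

lemma mem_La {i : Unit} : lt (x, y) ∈ D.La i ↔ D.Ly x y := by
  unfold La
  rw [mem_S]
  refine ⟨fun h => h.2, fun h => ⟨?_, h⟩⟩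
  have := D.hL
  unfold Ly at h
  unfold Z
  omega

lemma mem_TT : lt (x, y) ∈ D.TT ↔ D.Tp x y := by
  unfold TT
  rw [mem_S]
  refine ⟨fun h => h.2, fun h => ⟨?_, h⟩⟩
  have := D.hL
  have := D.hx
  unfold Tp at h
  unfold Z
  omega

lemma mem_Wl {i : Unit} : lt (x, y) ∈ D.Wl i ↔ D.Wp x y := by
  unfold Wl
  rw [mem_S]
  refine ⟨fun h => h.2, fun h => ⟨?_, h⟩⟩
  have := D.hx
  unfold Wp at h
  unfold Z
  omega

lemma mem_W : lt (x, y) ∈ D.W ↔ D.Op x y := by
  unfold W
  rw [mem_S]
  refine ⟨fun h => h.2, fun h => ⟨?_, h⟩⟩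
  have := D.hx
  have := D.hL
  have := D.hH
  unfold Op Wp at h
  unfold Z
  split_ifs at h <;> omega

lemma mem_E : lt (x, y) ∈ D.E ↔ D.Bd x y ∨ D.Tp x y := by
  unfold E
  rw [mem_union, mem_Bb, mem_TT]

lemma odd_E (he : e ∈ D.E) : (e.1 + e.2) % 2 = 1 := by
  rcases mem_union.1 he with h | h
  · exact odd_S h
  · exact odd_S h

lemma odd_W (he : e ∈ D.W) : (e.1 + e.2) % 2 = 1 := odd_S he

lemma disj_EW : Disjoint D.E D.W := by
  rw [disjoint_left]
  intro e h1 h2
  obtain ⟨x, y, rfl⟩ := exists_lt (odd_E h1)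
  rw [mem_E] at h1
  rw [mem_W] at h2
  unfold Op Wp at h2
  rcases h1 with h1 | h1
  · unfold Bd at h1
    split_ifs at h2 <;> omega
  · have h3 := h1
    unfold Tp at h1
    split_ifs at h2
    · omega
    · rcases h2 with ⟨-, -, h2 | h2 | h2⟩
      · omega
      · omega
      · exact h2.2.2.2 h3

/-- all labels are low -/
lemma low (he : e ∈ D.E ∪ D.W) : e.2 < 2 * D.Nr - 3 := by
  have key : ∀ x y : ℤ, D.Z x y → (lt (x, y)).2 < 2 * D.Nr - 3 := by
    intro x y h
    have h1 := le_abs_self D.w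
    have h2 := abs_nonneg D.w
    have h3 := D.hH
    have h4 := D.hL
    unfold Z at h
    unfold lt Nr
    simp only
    omega
  have ho : (e.1 + e.2) % 2 = 1 := by
    rcases mem_union.1 he with h | h
    · exact odd_E h
    · exact odd_W h
  obtain ⟨x, y, rfl⟩ := exists_lt ho
  apply key
  unfold E Bb TT W at he
  simp only [mem_union, mem_S] at he
  tauto

variable (D) in
/-- **The environment of the reference**: isolated root above the box. -/
noncomputable def XR : Env :=
  Env.plane D.E D.W (0, 2 * D.Nr) 0 (0, D.Nr - 1) (fun _ he => odd_E he) disj_EW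
    (by
      unfold ty
      simp only
      rw [if_pos (by omega), if_pos (by omega)]
      decide)
    (by
      unfold plab
      simp only
      rw [if_pos (by omega), if_pos (by omega)]
      intro h
      have := low (mem_union_left _ h)
      simp only at this
      omega)
    (by
      have e1 : fi (0, 2 * D.Nr) = (0, D.Nr) := by
        unfold fi
        refine Prod.ext ?_ ?_ <;> simp only <;> omega
      rw [e1]
      refine ⟨{(-1, 2 * D.Nr - 2)}, Relation.ReflTransGen.single ⟨?_, ?_⟩⟩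
      · unfold IsUnit4
        simp only [Prod.ext_iff, Prod.fst_sub, Prod.snd_sub]
        omega
      · refine Pool.Agent.H39.Q1.mem_du_of (a := (0, D.Nr)) (b := (0, D.Nr - 1)) ?_ ?_
        · rw [mem_singleton]
          refine Prod.ext ?_ ?_
          · simp
          · simp only [Prod.snd_sub, Prod.snd_add]; ring
        · have e2 : ((0, D.Nr) + (0, D.Nr - 1) - (1, 1) : ℤ × ℤ) = (-1, 2 * D.Nr - 2) := by
            refine Prod.ext ?_ ?_
            · simp
            · simp only [Prod.snd_sub, Prod.snd_add]; ring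
          rw [e2]
          intro h
          have := low h
          simp only at this
          omega)
    (by
      intro v hv
      have e1 : vx (0, 2 * D.Nr) = (0, D.Nr) := by
        unfold vx
        refine Prod.ext ?_ ?_ <;> simp only <;> omega
      rw [e1] at hv
      have key : v = (0, D.Nr) := by
        induction hv with
        | refl => rfl
        | @tail a b _ hab ih =>
          exfalso
          subst ih
          obtain ⟨h1, h2⟩ := hab
          have := low h2
          unfold IsUnit4 at h1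
          simp only [Prod.ext_iff, Prod.fst_sub, Prod.snd_sub] at h1
          simp only [Prod.snd_add] at this
          omega
      rw [key]
      simp only
      omega)

@[simp] lemma XR_E : D.XR.E = D.E := rfl
@[simp] lemma XR_c0 : D.XR.c0 = (0, 2 * D.Nr) := rfl

lemma XR_planeLike : D.XR.PlaneLike D.W := Env.planeLike_plane

end RB

end Pool.Agent.H42.W
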