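import Mathlib
import Pool.Agent.H42.W.Tog

set_option autoImplicit false
open Finset

/-! # Dead ends

`Tog.del` : a fixed open label with an end whose other three labels are fixed closed labels of the mask can be
removed. `Tog.add` : a fixed closed label with a face whose other three labels are fixed open labels of the mask can
be added. -/

namespace Pool.Agent.H42.W

open Pool.Agent.H75.Perc Pool.Agent.H75.TwoArm Pool.Agent.H75.Four Pool.Agent.H69.Q1
open Pool.Agent.Q1 Pool.Agent.H99.NC Pool.Agent.H60.Q1 Pool.Agent.H39.Q1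

variable {E W M w S Wt : Finset (ℤ × ℤ)} {F : Finset (ℤ × ℤ) → ℂ} {e u v φ ψ x y a b d p f : ℤ × ℤ}

private lemma mdu {E w' : Finset (ℤ × ℤ)} {l : ℤ × ℤ} : l ∈ du E w' ↔ l - (1, 1) ∈ E ∧ l - (1, 1) ∉ w' := by
  unfold du
  rw [mem_map]
  constructor
  · rintro ⟨a, ha, rfl⟩
    have : (sh1 a) - (1, 1) = a := by
      show ((a.1 + 1, a.2 + 1) : ℤ × ℤ) - (1, 1) = a
      refine Prod.ext ?_ ?_ <;> simp
    rw [this]
    exact mem_sdiff.1 ha
  · rintro ⟨h1, h2⟩
    refine ⟨l - (1, 1), mem_sdiff.2 ⟨h1, h2⟩, ?_⟩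
    show (((l - (1, 1)).1 + 1, (l - (1, 1)).2 + 1) : ℤ × ℤ) = l
    refine Prod.ext ?_ ?_ <;> simp

private lemma stp {S : Finset (ℤ × ℤ)} {a1 a2 b1 b2 : ℤ} (h : IsUnit4 ((b1, b2) - (a1, a2)))
    (hS : (a1 + b1, a2 + b2) ∈ S) : Co S (a1, a2) (b1, b2) :=
  Relation.ReflTransGen.single ⟨h, by rw [Prod.mk_add_mk]; exact hS⟩

/-- **the fourth edge of a square** -/
lemma sq_four {p1 p2 : ℤ} (hd : d = (2 * p1 + 1, 2 * p2) ∨ d = (2 * p1 + 2, 2 * p2 + 1) ∨
      d = (2 * p1 + 1, 2 * p2 + 2) ∨ d = (2 * p1, 2 * p2 + 1))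
    (h : ∀ l, l = (2 * p1 + 1, 2 * p2) ∨ l = (2 * p1 + 2, 2 * p2 + 1) ∨
      l = (2 * p1 + 1, 2 * p2 + 2) ∨ l = (2 * p1, 2 * p2 + 1) → l ≠ d → l ∈ S)
    (hu : IsUnit4 (b - a)) (hab : a + b = d) : Co S a b := by
  have c1 : (2 * p1 + 1, 2 * p2) ≠ d → Co S (p1, p2) (p1 + 1, p2) := fun hn =>
    stp (Or.inl (Prod.ext (by simp) (by simp))) (by
      have := h _ (Or.inl rfl) hn
      convert this using 2 <;> ring)
  have c2 : (2 * p1 + 2, 2 * p2 + 1) ≠ d → Co S (p1 + 1, p2) (p1 + 1, p2 + 1) := fun hn =>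
    stp (Or.inr (Or.inl (Prod.ext (by simp) (by simp)))) (by
      have := h _ (Or.inr (Or.inl rfl)) hn
      convert this using 2 <;> ring)
  have c3 : (2 * p1 + 1, 2 * p2 + 2) ≠ d → Co S (p1, p2 + 1) (p1 + 1, p2 + 1) := fun hn =>
    stp (Or.inl (Prod.ext (by simp) (by simp))) (by
      have := h _ (Or.inr (Or.inr (Or.inl rfl))) hn
      convert this using 2 <;> ring)
  have c4 : (2 * p1, 2 * p2 + 1) ≠ d → Co S (p1, p2) (p1, p2 + 1) := fun hn =>
    stp (Or.inr (Or.inl (Prod.ext (by simp) (by simp)))) (by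
      have := h _ (Or.inr (Or.inr (Or.inr rfl))) hn
      convert this using 2 <;> ring)
  obtain ⟨a1, a2⟩ := a
  obtain ⟨b1, b2⟩ := b
  obtain ⟨d1, d2⟩ := d
  rw [Prod.mk_add_mk, Prod.mk.injEq] at hab
  unfold IsUnit4 at hu
  simp only [Prod.mk_sub_mk, Prod.mk.injEq] at hu hd
  simp only [ne_eq, Prod.mk.injEq] at c1 c2 c3 c4
  have key : ∀ {r1 r2 s1 s2 : ℤ}, Co S (r1, r2) (s1, s2) →
      (a1 = r1 ∧ a2 = r2 ∧ b1 = s1 ∧ b2 = s2) ∨ (a1 = s1 ∧ a2 = s2 ∧ b1 = r1 ∧ b2 = r2) →
      Co S (a1, a2) (b1, b2) := by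
    rintro r1 r2 s1 s2 h1 (⟨rfl, rfl, rfl, rfl⟩ | ⟨rfl, rfl, rfl, rfl⟩)
    · exact h1
    · exact h1.symm
  rcases hd with hd | hd | hd | hd
  · refine key (((c4 (by omega)).trans (c3 (by omega))).trans (c2 (by omega)).symm) ?_
    rcases hu with hu | hu | hu | hu <;> first | (left; omega) | (right; omega)
  · refine key (((c1 (by omega)).symm.trans (c4 (by omega))).trans (c3 (by omega))) ?_
    rcases hu with hu | hu | hu | hu <;> first | (left; omega) | (right; omega)
  · refine key (((c4 (by omega)).symm.trans (c1 (by omega))).trans (c2 (by omega))) ?_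
    rcases hu with hu | hu | hu | hu <;> first | (left; omega) | (right; omega)
  · refine key (((c1 (by omega)).trans (c2 (by omega))).trans (c3 (by omega)).symm) ?_
    rcases hu with hu | hu | hu | hu <;> first | (left; omega) | (right; omega)

/-- **An open dead end is removed.** -/
theorem Tog.del (hF : Tog E Wt M F) (hd : d ∉ E) (hv : IsUnit4 (v - u)) (hdu : u + v = d)
    (h : ∀ z, IsUnit4 (z - u) → u + z ≠ d → u + z ∈ M ∧ u + z ∉ E ∧ u + z ∉ Wt) :
    Tog E (Wt.erase d) M F where
  A := by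
    intro w hw e he heM heW hew u v h1 h2 h3
    have hed : e ≠ d := fun h => hd (h ▸ he)
    refine hF.A w hw e he heM (fun h => heW (mem_erase.2 ⟨hed, h⟩)) hew u v h1 h2 (h3.mono ?_)
    exact inter_subset_inter_right (union_subset_union_right (erase_subset _ _))
  C := by
    intro w hw e he heM heW hew φ ψ h1 h2 h3
    have hed : e ≠ d := fun h => hd (h ▸ he)
    refine hF.C w hw e he heM (fun h => heW (mem_erase.2 ⟨hed, h⟩)) hew φ ψ h1 h2 ?_
    clear h1 h2
    induction h3 with
    | refl => exact Co.refl _ _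
    | @tail a b _ hab ih =>
      refine ih.trans ?_
      obtain ⟨g1, g2⟩ := hab
      rw [mdu] at g2
      by_cases hl : a + b - (1, 1) = d
      · refine sq_four (p1 := u.1) (p2 := u.2) (d := d + (1, 1)) ?_ ?_ g1 (by rw [← hl, sub_add_cancel])
        · obtain ⟨u1, u2⟩ := u
          obtain ⟨v1, v2⟩ := v
          subst hdu
          unfold IsUnit4 at hv
          simp only [Prod.mk_sub_mk, Prod.mk.injEq, Prod.mk_add_mk] at hv ⊢
          omega
        · intro l hl1 hl2
          have key : ∀ s : ℤ × ℤ, IsUnit4 s → l = u + (u + s) + (1, 1) →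
              l ∈ du (M.erase e) (w ∪ Wt) := by
            intro s hs hl3
            rw [mdu]
            have e1 : l - (1, 1) = u + (u + s) := by rw [hl3, add_sub_cancel_right]
            rw [e1]
            obtain ⟨k1, k2, k3⟩ := h (u + s) (by rwa [add_sub_cancel_left]) (by
              intro h4
              exact hl2 (by rw [hl3, h4]))
            refine ⟨mem_erase.2 ⟨fun h5 => k2 (h5 ▸ he), k1⟩, fun h5 => ?_⟩
            rcases mem_union.1 h5 with h5 | h5
            · exact k2 (hw h5)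
            · exact k3 h5
          rcases hl1 with h5 | h5 | h5 | h5
          · refine key (0, -1) (Or.inr (Or.inr (Or.inr rfl))) ?_
            rw [h5]; refine Prod.ext ?_ ?_ <;> simp <;> ring
          · refine key (1, 0) (Or.inl rfl) ?_
            rw [h5]; refine Prod.ext ?_ ?_ <;> simp <;> ring
          · refine key (0, 1) (Or.inr (Or.inl rfl)) ?_
            rw [h5]; refine Prod.ext ?_ ?_ <;> simp <;> ring
          · refine key (-1, 0) (Or.inr (Or.inr (Or.inl rfl))) ?_
            rw [h5]; refine Prod.ext ?_ ?_ <;> simp <;> ring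
      · refine Relation.ReflTransGen.single ⟨g1, ?_⟩
        rw [mdu]
        refine ⟨g2.1, fun h5 => g2.2 ?_⟩
        rcases mem_union.1 h5 with h5 | h5
        · exact mem_union_left _ h5
        · exact mem_union_right _ (mem_erase.2 ⟨hl, h5⟩)

/-- **A closed dead end is opened.** -/
theorem Tog.add (hF : Tog E Wt M F) (hd : d ∉ E) (hv : IsUnit4 (φ - f)) (hdf : f + φ - (1, 1) = d)
    (h : ∀ z, IsUnit4 (z - f) → f + z - (1, 1) ≠ d → f + z - (1, 1) ∈ M ∧ f + z - (1, 1) ∈ Wt) :
    Tog E (insert d Wt) M F where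
  C := by
    intro w hw e he heM heW hew u v h1 h2 h3
    refine hF.C w hw e he heM (fun h => heW (mem_insert_of_mem h)) hew u v h1 h2 (h3.mono ?_)
    intro l hl
    rw [mdu] at hl ⊢
    refine ⟨hl.1, fun h5 => hl.2 ?_⟩
    rcases mem_union.1 h5 with h5 | h5
    · exact mem_union_left _ h5
    · exact mem_union_right _ (mem_insert_of_mem h5)
  A := by
    intro w hw e he heM heW hew u v h1 h2 h3
    refine hF.A w hw e he heM (fun h => heW (mem_insert_of_mem h)) hew u v h1 h2 ?_
    clear h1 h2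
    induction h3 with
    | refl => exact Co.refl _ _
    | @tail a b _ hab ih =>
      refine ih.trans ?_
      obtain ⟨g1, g2⟩ := hab
      by_cases hl : a + b = d
      · refine sq_four (p1 := f.1 - 1) (p2 := f.2 - 1) (d := d) ?_ ?_ g1 hl
        · obtain ⟨f1, f2⟩ := f
          obtain ⟨p1, p2⟩ := φ
          subst hdf
          unfold IsUnit4 at hv
          simp only [Prod.mk_sub_mk, Prod.mk.injEq, Prod.mk_add_mk] at hv ⊢
          omega
        · intro l hl1 hl2
          have key : ∀ s : ℤ × ℤ, IsUnit4 s → l = f + (f + s) - (1, 1) → l ∈ (w ∪ Wt) ∩ M := by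
            intro s hs hl3
            obtain ⟨k1, k2⟩ := h (f + s) (by rwa [add_sub_cancel_left]) (by
              intro h4
              exact hl2 (by rw [hl3, h4]))
            rw [hl3]
            exact mem_inter.2 ⟨mem_union_right _ k2, k1⟩
          rcases hl1 with h5 | h5 | h5 | h5
          · refine key (0, -1) (Or.inr (Or.inr (Or.inr rfl))) ?_
            rw [h5]; refine Prod.ext ?_ ?_ <;> simp <;> ring
          · refine key (1, 0) (Or.inl rfl) ?_
            rw [h5]; refine Prod.ext ?_ ?_ <;> simp <;> ring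
          · refine key (0, 1) (Or.inr (Or.inl rfl)) ?_
            rw [h5]; refine Prod.ext ?_ ?_ <;> simp <;> ring
          · refine key (-1, 0) (Or.inr (Or.inr (Or.inl rfl))) ?_
            rw [h5]; refine Prod.ext ?_ ?_ <;> simp <;> ring
      · refine Relation.ReflTransGen.single ⟨g1, ?_⟩
        obtain ⟨g3, g4⟩ := mem_inter.1 g2
        refine mem_inter.2 ⟨?_, g4⟩
        rcases mem_union.1 g3 with h5 | h5
        · exact mem_union_left _ h5
        · rcases mem_insert.1 h5 with h5 | h5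
          · exact absurd h5 hl
          · exact mem_union_right _ h5

end Pool.Agent.H42.W
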