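import Mathlib
import Pool.Agent.H39.Q1.FlatW
import Pool.Agent.H39.Q1.Hide
import Pool.Agent.H33.Q1.Tile
import Pool.Agent.H74.R45.Def

set_option autoImplicit false
open Finset

/-! # Corners of tiles and solid rectangles

`vc c X Y` : the node of the colour `c` (vertex for `true`, face for `false`) at the corner `(X, Y)` of the tile
frame, `X + Y` even for vertices, odd for faces. `cX c v`, `cY v` : the inverse. `ed c S` : the labels of `S` as edges
of the colour `c`. `rect_conn` : the nodes of a solid rectangle of tiles are connected in it. -/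

namespace Pool.Agent.H42.W

open Pool.Agent.H75.Perc Pool.Agent.H75.TwoArm Pool.Agent.Q1 Pool.Agent.H33.Q1
open Pool.Agent.H75.Four Pool.Agent.H69.Q1
open Pool.Agent.H39.Q1 (el nd unit_symm mem_du_of)
open Pool.Agent.H74.R45 (exists_lt)

/-- parity of the nodes of the colour `c` -/
def pr (c : Bool) : ℤ := if c = true then 0 else 1

/-- node at a corner -/
def vc (c : Bool) (X Y : ℤ) : ℤ × ℤ :=
  if c = true then ((X - Y) / 2, (X + Y) / 2) else ((X + 1 - Y) / 2, (X + 1 + Y) / 2)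

/-- column of a node -/
def cX (c : Bool) (v : ℤ × ℤ) : ℤ := v.1 + v.2 - pr c

/-- row of a node -/
def cY (v : ℤ × ℤ) : ℤ := v.2 - v.1

/-- labels as edges of the colour `c` -/
noncomputable def ed (c : Bool) (S : Finset (ℤ × ℤ)) : Finset (ℤ × ℤ) := if c = true then S else du S ∅

variable {c : Bool} {X Y X' Y' a b y0 y1 x y : ℤ} {u v z : ℤ × ℤ} {S : Finset (ℤ × ℤ)}

lemma par_c : (cX c v + cY v) % 2 = pr c := by
  unfold cX cY pr
  cases c
  · rw [if_neg Bool.false_ne_true]; omega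
  · rw [if_pos rfl]; omega

lemma vc_c : vc c (cX c v) (cY v) = v := by
  unfold vc cX cY pr
  cases c
  · rw [if_neg Bool.false_ne_true, if_neg Bool.false_ne_true]
    refine Prod.ext ?_ ?_ <;> simp only <;> omega
  · rw [if_pos rfl, if_pos rfl]
    refine Prod.ext ?_ ?_ <;> simp only <;> omega

lemma cX_vc (h : (X + Y) % 2 = pr c) : cX c (vc c X Y) = X := by
  unfold pr at h
  unfold vc cX pr
  cases c
  · rw [if_neg Bool.false_ne_true] at h
    rw [if_neg Bool.false_ne_true, if_neg Bool.false_ne_true]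
    simp only; omega
  · rw [if_pos rfl] at h
    rw [if_pos rfl, if_pos rfl]
    simp only; omega

lemma cY_vc (h : (X + Y) % 2 = pr c) : cY (vc c X Y) = Y := by
  unfold pr at h
  unfold vc cY
  cases c
  · rw [if_neg Bool.false_ne_true] at h
    rw [if_neg Bool.false_ne_true]
    simp only; omega
  · rw [if_pos rfl] at h
    rw [if_pos rfl]
    simp only; omega

lemma c_ext (h1 : cX c u = cX c v) (h2 : cY u = cY v) : u = v := by
  unfold cX cY at *
  refine Prod.ext ?_ ?_ <;> omega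

/-- **The four edges at a node.** -/
lemma el_cases (h : IsUnit4 (z - v)) :
    (z = v + (1, 0) ∧ el c v z = lt (cX c v, cY v - 1) ∧ cX c z = cX c v + 1 ∧ cY z = cY v - 1) ∨
    (z = v + (0, 1) ∧ el c v z = lt (cX c v, cY v) ∧ cX c z = cX c v + 1 ∧ cY z = cY v + 1) ∨
    (z = v - (1, 0) ∧ el c v z = lt (cX c v - 1, cY v) ∧ cX c z = cX c v - 1 ∧ cY z = cY v + 1) ∨
    (z = v - (0, 1) ∧ el c v z = lt (cX c v - 1, cY v - 1) ∧ cX c z = cX c v - 1 ∧
      cY z = cY v - 1) := by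
  obtain ⟨z1, z2⟩ := z
  obtain ⟨v1, v2⟩ := v
  rcases h with h | h | h | h
  · left
    rw [Prod.mk_sub_mk, Prod.mk.injEq] at h
    refine ⟨Prod.ext ?_ ?_, ?_, ?_, ?_⟩
    · simp only [Prod.fst_add]; omega
    · simp only [Prod.snd_add]; omega
    · unfold el lt cX cY pr
      cases c
      · rw [if_neg Bool.false_ne_true, if_neg Bool.false_ne_true]
        refine Prod.ext ?_ ?_ <;> simp only [Prod.mk_add_mk, Prod.mk_sub_mk] <;> omega
      · rw [if_pos rfl, if_pos rfl]
        refine Prod.ext ?_ ?_ <;> simp only [Prod.mk_add_mk] <;> omega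
    · unfold cX; simp only; omega
    · unfold cY; simp only; omega
  · right; left
    rw [Prod.mk_sub_mk, Prod.mk.injEq] at h
    refine ⟨Prod.ext ?_ ?_, ?_, ?_, ?_⟩
    · simp only [Prod.fst_add]; omega
    · simp only [Prod.snd_add]; omega
    · unfold el lt cX cY pr
      cases c
      · rw [if_neg Bool.false_ne_true, if_neg Bool.false_ne_true]
        refine Prod.ext ?_ ?_ <;> simp only [Prod.mk_add_mk, Prod.mk_sub_mk] <;> omega
      · rw [if_pos rfl, if_pos rfl]
        refine Prod.ext ?_ ?_ <;> simp only [Prod.mk_add_mk] <;> omega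
    · unfold cX; simp only; omega
    · unfold cY; simp only; omega
  · right; right; left
    rw [Prod.mk_sub_mk, Prod.mk.injEq] at h
    refine ⟨Prod.ext ?_ ?_, ?_, ?_, ?_⟩
    · simp only [Prod.fst_sub]; omega
    · simp only [Prod.snd_sub]; omega
    · unfold el lt cX cY pr
      cases c
      · rw [if_neg Bool.false_ne_true, if_neg Bool.false_ne_true]
        refine Prod.ext ?_ ?_ <;> simp only [Prod.mk_add_mk, Prod.mk_sub_mk] <;> omega
      · rw [if_pos rfl, if_pos rfl]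
        refine Prod.ext ?_ ?_ <;> simp only [Prod.mk_add_mk] <;> omega
    · unfold cX; simp only; omega
    · unfold cY; simp only; omega
  · right; right; right
    rw [Prod.mk_sub_mk, Prod.mk.injEq] at h
    refine ⟨Prod.ext ?_ ?_, ?_, ?_, ?_⟩
    · simp only [Prod.fst_sub]; omega
    · simp only [Prod.snd_sub]; omega
    · unfold el lt cX cY pr
      cases c
      · rw [if_neg Bool.false_ne_true, if_neg Bool.false_ne_true]
        refine Prod.ext ?_ ?_ <;> simp only [Prod.mk_add_mk, Prod.mk_sub_mk] <;> omega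
      · rw [if_pos rfl, if_pos rfl]
        refine Prod.ext ?_ ?_ <;> simp only [Prod.mk_add_mk] <;> omega
    · unfold cX; simp only; omega
    · unfold cY; simp only; omega

/-- **Diagonal neighbours.** -/
lemma unit_of_c {s t : ℤ} (hs : s = 1 ∨ s = -1) (ht : t = 1 ∨ t = -1) (h1 : cX c z = cX c v + s)
    (h2 : cY z = cY v + t) : IsUnit4 (z - v) := by
  obtain ⟨z1, z2⟩ := z
  obtain ⟨v1, v2⟩ := v
  unfold cX at h1
  unfold cY at h2
  simp only at h1 h2
  rcases hs with rfl | rfl <;> rcases ht with rfl | rfl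
  · right; left; refine Prod.ext ?_ ?_ <;> simp only [Prod.mk_sub_mk] <;> omega
  · left; refine Prod.ext ?_ ?_ <;> simp only [Prod.mk_sub_mk] <;> omega
  · right; right; left; refine Prod.ext ?_ ?_ <;> simp only [Prod.mk_sub_mk] <;> omega
  · right; right; right; refine Prod.ext ?_ ?_ <;> simp only [Prod.mk_sub_mk] <;> omega

/-- the tile of an edge touches the node -/
lemma el_tile (h : IsUnit4 (z - v)) (he : el c v z = lt (x, y)) :
    (x = cX c v ∨ x = cX c v - 1) ∧ (y = cY v ∨ y = cY v - 1) := by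
  rcases el_cases (c := c) h with ⟨-, h1, -⟩ | ⟨-, h1, -⟩ | ⟨-, h1, -⟩ | ⟨-, h1, -⟩
  all_goals
    rw [h1] at he
    have := lt_inj he
    simp only [Prod.mk.injEq] at this
    omega

/-- both ends of an edge are corners of its tile -/
lemma el_box (h : IsUnit4 (z - v)) (he : el c v z = lt (x, y)) :
    (x ≤ cX c v ∧ cX c v ≤ x + 1 ∧ y ≤ cY v ∧ cY v ≤ y + 1) ∧
    (x ≤ cX c z ∧ cX c z ≤ x + 1 ∧ y ≤ cY z ∧ cY z ≤ y + 1) := by
  rcases el_cases (c := c) h with ⟨-, h1, h2, h3⟩ | ⟨-, h1, h2, h3⟩ | ⟨-, h1, h2, h3⟩ | ⟨-, h1, h2, h3⟩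
  all_goals
    rw [h1] at he
    have := lt_inj he
    simp only [Prod.mk.injEq] at this
    obtain ⟨h4, h5⟩ := this
    refine ⟨⟨?_, ?_, ?_, ?_⟩, ?_, ?_, ?_, ?_⟩ <;> omega

lemma mem_ed_of (hu : el c v z ∈ S) : v + z ∈ ed c S := by
  unfold ed
  cases c
  · rw [if_neg Bool.false_ne_true]
    rw [Pool.Agent.H39.Q1.el_false] at hu
    exact mem_du_of hu (notMem_empty _)
  · rw [if_pos rfl]
    rwa [Pool.Agent.H39.Q1.el_true] at hu

lemma co_ed (h : IsUnit4 (z - v)) (hu : el c v z ∈ S) : Co (ed c S) v z :=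
  Relation.ReflTransGen.single ⟨h, mem_ed_of hu⟩

/-- a diagonal step -/
lemma co_diag (h : (X + Y) % 2 = pr c) {s t : ℤ} (hs : s = 1 ∨ s = -1) (ht : t = 1 ∨ t = -1)
    (hS : lt (X + (s - 1) / 2, Y + (t - 1) / 2) ∈ S) :
    Co (ed c S) (vc c X Y) (vc c (X + s) (Y + t)) := by
  have e1 : cX c (vc c X Y) = X := cX_vc h
  have e2 : cY (vc c X Y) = Y := cY_vc h
  have h' : (X + s + (Y + t)) % 2 = pr c := by
    rcases hs with rfl | rfl <;> rcases ht with rfl | rfl <;> omega
  have e3 : cX c (vc c (X + s) (Y + t)) = X + s := cX_vc h'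
  have e4 : cY (vc c (X + s) (Y + t)) = Y + t := cY_vc h'
  have hu : IsUnit4 (vc c (X + s) (Y + t) - vc c X Y) :=
    unit_of_c hs ht (by rw [e3, e1]) (by rw [e4, e2])
  refine co_ed hu ?_
  have h0 := el_cases (c := c) hu
  rw [e1, e2, e3, e4] at h0
  rcases h0 with ⟨-, h1, h2, h3⟩ | ⟨-, h1, h2, h3⟩ | ⟨-, h1, h2, h3⟩ | ⟨-, h1, h2, h3⟩
  all_goals
    rw [h1]
    convert hS using 3 <;> omega

/-- **The nodes of a solid rectangle are connected.** -/
theorem rect_conn (hab : a < b) (hy : y0 < y1)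
    (hS : ∀ x y, a ≤ x → x < b → y0 ≤ y → y < y1 → lt (x, y) ∈ S) (hp' : (X' + Y') % 2 = pr c)
    (g5 : a ≤ X') (g6 : X' ≤ b) (g7 : y0 ≤ Y') (g8 : Y' ≤ y1) :
    ∀ (n : ℕ) (X Y : ℤ), X' - n ≤ X → X ≤ X' + n → Y' - n ≤ Y → Y ≤ Y' + n → (X + Y) % 2 = pr c →
      a ≤ X → X ≤ b → y0 ≤ Y → Y ≤ y1 → Co (ed c S) (vc c X Y) (vc c X' Y') := by
  intro n
  induction n with
  | zero =>
    intro X Y h1 h2 h3 h4 _ _ _ _ _
    rw [show X = X' by omega, show Y = Y' by omega]
    exact Co.refl _ _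
  | succ n ih =>
    intro X Y h1 h2 h3 h4 hp k1 k2 k3 k4
    push_cast at h1 h2 h3 h4
    by_cases heq : X = X' ∧ Y = Y'
    · rw [heq.1, heq.2]; exact Co.refl _ _
    obtain ⟨s, hs, s1, s2, s3, s4⟩ : ∃ s : ℤ, (s = 1 ∨ s = -1) ∧ a ≤ X + s ∧ X + s ≤ b ∧
        X' - n ≤ X + s ∧ X + s ≤ X' + n := by
      rcases lt_trichotomy X X' with h | h | h
      · exact ⟨1, Or.inl rfl, by omega, by omega, by omega, by omega⟩
      · have : 1 ≤ (n : ℤ) := by omega
        by_cases hb : X < b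
        · exact ⟨1, Or.inl rfl, by omega, by omega, by omega, by omega⟩
        · exact ⟨-1, Or.inr rfl, by omega, by omega, by omega, by omega⟩
      · exact ⟨-1, Or.inr rfl, by omega, by omega, by omega, by omega⟩
    obtain ⟨t, ht, t1, t2, t3, t4⟩ : ∃ t : ℤ, (t = 1 ∨ t = -1) ∧ y0 ≤ Y + t ∧ Y + t ≤ y1 ∧
        Y' - n ≤ Y + t ∧ Y + t ≤ Y' + n := by
      rcases lt_trichotomy Y Y' with h | h | h
      · exact ⟨1, Or.inl rfl, by omega, by omega, by omega, by omega⟩
      · have : 1 ≤ (n : ℤ) := by omega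
        by_cases hb : Y < y1
        · exact ⟨1, Or.inl rfl, by omega, by omega, by omega, by omega⟩
        · exact ⟨-1, Or.inr rfl, by omega, by omega, by omega, by omega⟩
      · exact ⟨-1, Or.inr rfl, by omega, by omega, by omega, by omega⟩
    refine (co_diag hp hs ht (hS _ _ ?_ ?_ ?_ ?_)).trans
      (ih (X + s) (Y + t) s3 s4 t3 t4 ?_ s1 s2 t1 t2)
    · rcases hs with rfl | rfl <;> omega
    · rcases hs with rfl | rfl <;> omega
    · rcases ht with rfl | rfl <;> omega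
    · rcases ht with rfl | rfl <;> omega
    · rcases hs with rfl | rfl <;> rcases ht with rfl | rfl <;> omega

/-- connected nodes of a solid rectangle -/
theorem co_rect (hab : a < b) (hy : y0 < y1)
    (hS : ∀ x y, a ≤ x → x < b → y0 ≤ y → y < y1 → lt (x, y) ∈ S)
    (h1 : a ≤ cX c u ∧ cX c u ≤ b ∧ y0 ≤ cY u ∧ cY u ≤ y1)
    (h2 : a ≤ cX c v ∧ cX c v ≤ b ∧ y0 ≤ cY v ∧ cY v ≤ y1) : Co (ed c S) u v := by
  have := rect_conn (c := c) hab hy hS (par_c (v := v)) h2.1 h2.2.1 h2.2.2.1 h2.2.2.2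
    ((b - a).toNat + (y1 - y0).toNat) (cX c u) (cY u) (by omega) (by omega) (by omega) (by omega)
    par_c h1.1 h1.2.1 h1.2.2.1 h1.2.2.2
  rwa [vc_c, vc_c] at this

end Pool.Agent.H42.W
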