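import Mathlib
import Pool.Agent.H42.W.RefD
import Pool.Agent.H42.W.Cnr

set_option autoImplicit false
open Finset

/-! # The single wall reference is an environment with ties: `Multi` -/

namespace Pool.Agent.H42.W

open Pool.Agent.H75.Perc Pool.Agent.H75.TwoArm Pool.Agent.Q1 Pool.Agent.H33.Q1
open Pool.Agent.H75.Four Pool.Agent.H69.Q1 Pool.Agent.H39.Q1
open Pool.Agent.H74.R45 (exists_lt)

namespace RB

variable {D : RB} {x y : ℤ} {e : ℤ × ℤ}

/-- a tie is a tile of the column `w - 1` -/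
lemma tie_eq (he : e ∈ D.TT) : ∃ y, e = lt (D.w - 1, y) ∧ 0 ≤ y ∧ y < D.H ∧ (D.w - 1 + y) % 2 = 1 ∧
    (if D.c = true then y + 1 < D.H else 0 < y) := by
  obtain ⟨x, y, rfl⟩ := exists_lt (odd_S he)
  rw [mem_TT] at he
  obtain ⟨rfl, h2, h3, h4, h5⟩ := he
  exact ⟨y, rfl, h2, h3, h4, h5⟩

/-- ends of a tie -/
lemma tie_ends {y : ℤ} (hy : (D.w - 1 + y) % 2 = 1) : IsUnit4 (D.b (lt (D.w - 1, y)) - D.o (lt (D.w - 1, y))) ∧
    el D.c (D.o (lt (D.w - 1, y))) (D.b (lt (D.w - 1, y))) = lt (D.w - 1, y) ∧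
    cX D.c (D.o (lt (D.w - 1, y))) = D.w ∧
    cY (D.o (lt (D.w - 1, y))) = (if D.c = true then y else y + 1) ∧
    cX D.c (D.b (lt (D.w - 1, y))) = D.w - 1 ∧
    cY (D.b (lt (D.w - 1, y))) = (if D.c = true then y + 1 else y) := by
  unfold b o lt el cX cY pr
  rcases D.c with _ | _
  · simp only [Bool.false_eq_true, if_false]
    refine ⟨Or.inr (Or.inr (Or.inr (Prod.ext ?_ ?_))), Prod.ext ?_ ?_, ?_, ?_, ?_, ?_⟩ <;>
      (try simp only [Prod.mk_sub_mk, Prod.mk_add_mk]) <;> omega
  · simp only [if_true]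
    refine ⟨Or.inr (Or.inr (Or.inl (Prod.ext ?_ ?_))), Prod.ext ?_ ?_, ?_, ?_, ?_, ?_⟩ <;>
      (try simp only [Prod.mk_sub_mk, Prod.mk_add_mk]) <;> omega

/-- the nodes of the wall are connected in it -/
lemma wall_co {u v : ℤ × ℤ}
    (hu : D.w ≤ cX D.c u ∧ cX D.c u ≤ D.w + D.L ∧ 0 ≤ cY u ∧ cY u ≤ D.H)
    (hv : D.w ≤ cX D.c v ∧ cX D.c v ≤ D.w + D.L ∧ 0 ≤ cY v ∧ cY v ≤ D.H) {i : Unit} :
    Co (ed D.c (D.Wl i)) u v := by
  have h1 := D.hL
  have h2 := D.hH
  refine co_rect (a := D.w) (b := D.w + D.L) (y0 := 0) (y1 := D.H) (by omega) (by omega) ?_ hu hv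
  intro x y g1 g2 g3 g4
  rw [mem_Wl]
  exact ⟨g1, g2, g3, g4⟩

lemma o_box (he : e ∈ D.TT) : D.w ≤ cX D.c (D.o e) ∧ cX D.c (D.o e) ≤ D.w + D.L ∧ 0 ≤ cY (D.o e) ∧
    cY (D.o e) ≤ D.H := by
  obtain ⟨y, rfl, h1, h2, h3, h4⟩ := tie_eq he
  obtain ⟨-, -, g1, g2, -, -⟩ := tie_ends h3
  have := D.hL
  rw [g1, g2]
  split_ifs at h4 ⊢ <;> omega

lemma conn (he : e ∈ D.TT) {e' : ℤ × ℤ} (he' : e' ∈ D.TT) {i : Unit} :
    Co (ed D.c (D.Wl i)) (D.o e) (D.o e') := wall_co (o_box he) (o_box he')

lemma conn' {a b : ℤ × ℤ} (hu : IsUnit4 (b - a)) {i : Unit} (hl : el D.c a b ∈ D.Wl i) (he : e ∈ D.TT) :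
    Co (ed D.c (D.Wl i)) (D.o e) a := by
  refine wall_co (o_box he) ?_
  obtain ⟨x, y, hxy⟩ := exists_lt (odd_S (p := D.Wp) hl)
  rw [hxy, mem_Wl] at hl
  obtain ⟨h1, -⟩ := el_box hu hxy
  unfold Wp at hl
  omega

lemma TF_eq {i : Unit} : TF D.TT fm i = D.TT := by
  unfold TF
  rw [filter_true_of_mem]
  intro e _
  rfl

lemma Wl_sub (hc : D.c = true) {i : Unit} : D.Wl i ⊆ D.W := by
  intro l hl
  obtain ⟨x, y, rfl⟩ := exists_lt (odd_S (p := D.Wp) hl)
  rw [mem_Wl] at hl
  rw [mem_W]
  unfold Op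
  rw [if_pos hc]
  exact hl

lemma Wl_disj (hc : D.c = false) {i : Unit} : Disjoint (D.Wl i) D.W := by
  rw [disjoint_left]
  intro l hl h2
  obtain ⟨x, y, rfl⟩ := exists_lt (odd_S (p := D.Wp) hl)
  rw [mem_Wl] at hl
  rw [mem_W] at h2
  unfold Op at h2
  rw [hc, if_neg Bool.false_ne_true] at h2
  unfold Wp at hl
  omega

lemma Wl_disjE {i : Unit} : Disjoint (D.Wl i) D.E := by
  rw [disjoint_left]
  intro l hl h2
  obtain ⟨x, y, rfl⟩ := exists_lt (odd_S (p := D.Wp) hl)
  rw [mem_Wl] at hl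
  rw [mem_E] at h2
  unfold Wp at hl
  unfold Bd Tp at h2
  omega

/-- **The reference as an environment with ties.** -/
theorem multi : Multi D.XR D.W D.Bb D.Bb D.TT RB.fm D.co D.Wl D.La D.b D.o where
  pl := XR_planeLike
  bE := subset_union_left
  tE := subset_union_right
  bB := Subset.refl _
  bW := disj_EW.mono_left subset_union_left
  bT := by
    rw [disjoint_left]
    intro l h1 h2
    obtain ⟨x, y, rfl⟩ := exists_lt (odd_S (p := D.Bd) h1)
    rw [mem_Bb] at h1
    rw [mem_TT] at h2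
    unfold Bd at h1
    unfold Tp at h2
    omega
  tO := by
    intro i hc
    rw [TF_eq]
    have hc' : D.c = true := hc
    have hed : ∀ S, ed D.c S = S := fun S => by unfold ed; rw [if_pos hc']
    exact
      { sub := subset_union_right
        disj := disj_EW.mono_left subset_union_right
        w1 := Wl_sub hc'
        unit := by
          intro e he
          obtain ⟨y, rfl, h1, h2, h3, h4⟩ := tie_eq he
          exact (tie_ends h3).1
        ends := by
          intro e he
          obtain ⟨y, rfl, h1, h2, h3, h4⟩ := tie_eq he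
          have := (tie_ends h3).2.1
          rwa [hc', el_true] at this
        conn := by
          intro e he e' he'
          have := conn he he' (i := i)
          rwa [hed] at this
        conn' := by
          intro a b hu hl e he
          have := conn' hu (by rw [hc', el_true]; exact hl) he (i := i)
          rwa [hed] at this }
  tC := by
    intro i hc
    rw [TF_eq]
    have hc' : D.c = false := hc
    have hed : ∀ S, ed D.c S = du S ∅ := fun S => by unfold ed; rw [hc', if_neg Bool.false_ne_true]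
    exact
      { sub := subset_union_right
        disj := disj_EW.mono_left subset_union_right
        kE := Wl_disjE
        kW := Wl_disj hc'
        unit := by
          intro e he
          obtain ⟨y, rfl, h1, h2, h3, h4⟩ := tie_eq he
          exact (tie_ends h3).1
        ends := by
          intro e he
          obtain ⟨y, rfl, h1, h2, h3, h4⟩ := tie_eq he
          have := (tie_ends h3).2.1
          rw [hc', el_false] at this
          exact sub_eq_iff_eq_add.1 this
        conn := by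
          intro e he e' he'
          have := conn he he' (i := i)
          rwa [hed] at this
        conn' := by
          intro a b hu hl e he
          have := conn' hu (by rw [hc', el_false]; exact hl) he (i := i)
          rwa [hed] at this }
  la := by
    intro i l hl
    obtain ⟨x, y, rfl⟩ := exists_lt (odd_S (p := D.Ly) hl)
    rw [mem_La] at hl
    rw [mem_Bb]
    unfold Ly at hl
    unfold Bd
    omega
  nbO := fun _ _ _ _ _ _ h => h
  nbC := fun _ _ _ _ _ _ h => h

end RB

end Pool.Agent.H42.W
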